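import Pool.Agent.DBr.Der

/-! Adjunction between a cone functor and a cocone functor. -/

open CategoryTheory Category Limits Preadditive CochainComplex CochainComplex.HomComplex
open Pretriangulated

set_option backward.defeqAttrib.useBackward true
set_option backward.isDefEq.respectTransparency false
set_option linter.unusedSectionVars false

namespace DBr

universe v₁ v₂ u₁ u₂

variable {A : Type u₁} {B : Type u₂} [Category.{v₁} A] [Category.{v₂} B] [Preadditive A]
  [Preadditive B] [HasBinaryBiproducts A] [HasBinaryBiproducts B]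

section Cocone

variable {G₀ G₁ : A ⥤ B} [G₀.Additive] [G₁.Additive] (γ : G₀ ⟶ G₁)

/-- The functor which sends a complex to the mapping cocone of a natural transformation. -/
noncomputable def coconeF : CochainComplex A ℤ ⥤ CochainComplex B ℤ :=
  coneF γ ⋙ CategoryTheory.shiftFunctor (CochainComplex B ℤ) (-1 : ℤ)

variable (L M : CochainComplex A ℤ)

/-- First projection. -/
noncomputable def kfst (p : ℤ) : ((coconeF γ).obj L).X p ⟶ G₀.obj (L.X p) :=
  cfst γ L (p + -1) p (by lia)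

/-- Second projection. -/
noncomputable def ksnd (p q : ℤ) (h : q + 1 = p) : ((coconeF γ).obj L).X p ⟶ G₁.obj (L.X q) :=
  csnd γ L (p + -1) ≫ G₁.map (HomologicalComplex.XIsoOfEq L (by lia)).hom

/-- First inclusion. -/
noncomputable def kinl (p : ℤ) : G₀.obj (L.X p) ⟶ ((coconeF γ).obj L).X p :=
  cinl γ L p (p + -1) (by lia)

/-- Second inclusion. -/
noncomputable def kinr (p q : ℤ) (h : q + 1 = p) : G₁.obj (L.X q) ⟶ ((coconeF γ).obj L).X p :=
  G₁.map (HomologicalComplex.XIsoOfEq L (by lia)).hom ≫ cinr γ L (p + -1)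

@[reassoc (attr := simp)]
lemma kinl_kfst (p : ℤ) : kinl γ L p ≫ kfst γ L p = 𝟙 _ := by
  simp [kinl, kfst]

@[reassoc (attr := simp)]
lemma kinl_ksnd (p q : ℤ) (h : q + 1 = p) : kinl γ L p ≫ ksnd γ L p q h = 0 := by
  simp [kinl, ksnd]

@[reassoc (attr := simp)]
lemma kinr_kfst (p q : ℤ) (h : q + 1 = p) : kinr γ L p q h ≫ kfst γ L p = 0 := by
  simp [kinr, kfst]

@[reassoc (attr := simp)]
lemma kinr_ksnd (p q : ℤ) (h : q + 1 = p) : kinr γ L p q h ≫ ksnd γ L p q h = 𝟙 _ := by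
  obtain rfl : q = p + -1 := by lia
  simp [kinr, ksnd]

variable {L}

lemma kext_to (p q : ℤ) (h : q + 1 = p) {Z : B} {f g : Z ⟶ ((coconeF γ).obj L).X p}
    (h₁ : f ≫ kfst γ L p = g ≫ kfst γ L p) (h₂ : f ≫ ksnd γ L p q h = g ≫ ksnd γ L p q h) :
    f = g := by
  obtain rfl : q = p + -1 := by lia
  apply cext_to γ (p + -1) p (by lia)
  · exact h₁
  · simpa [ksnd] using h₂

lemma kext_from (p q : ℤ) (h : q + 1 = p) {Z : B} {f g : ((coconeF γ).obj L).X p ⟶ Z}
    (h₁ : kinl γ L p ≫ f = kinl γ L p ≫ g) (h₂ : kinr γ L p q h ≫ f = kinr γ L p q h ≫ g) :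
    f = g := by
  obtain rfl : q = p + -1 := by lia
  apply cext_from γ (p + -1) p (by lia)
  · exact h₁
  · simpa [kinr] using h₂

variable (L)

@[reassoc (attr := simp)]
lemma kd_kfst (p q : ℤ) :
    ((coconeF γ).obj L).d p q ≫ kfst γ L q = kfst γ L p ≫ G₀.map (L.d p q) := by
  by_cases h : p + 1 = q
  · subst h
    have key : ∀ m (hm : m = p),
        ((-1 : ℤ).negOnePow • ((coneF γ).obj L).d (p + -1) m) ≫ cfst γ L m (p + 1) (by lia) =
          cfst γ L (p + -1) p (by lia) ≫ G₀.map (L.d p (p + 1)) := by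
      rintro m rfl
      simp [d_cfst γ L (m + -1) m (m + 1) (by lia) (by lia)]
    exact key (p + 1 + -1) (by lia)
  · rw [HomologicalComplex.shape _ _ _ h, HomologicalComplex.shape _ _ _ h, zero_comp,
      G₀.map_zero, comp_zero]

@[reassoc]
lemma kd_ksnd (p q r : ℤ) (h : r + 1 = p) (h' : p + 1 = q) :
    ((coconeF γ).obj L).d p q ≫ ksnd γ L q p h' =
      -(kfst γ L p ≫ γ.app (L.X p)) - ksnd γ L p r h ≫ G₁.map (L.d r p) := by
  obtain rfl : r = p + -1 := by lia
  subst h'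
  have key : ∀ m (hm : m = p),
      ((-1 : ℤ).negOnePow • ((coneF γ).obj L).d (p + -1) m) ≫ csnd γ L m ≫
        G₁.map (HomologicalComplex.XIsoOfEq L hm).hom =
      -(cfst γ L (p + -1) p (by lia) ≫ γ.app (L.X p)) -
        (csnd γ L (p + -1) ≫ G₁.map (𝟙 (L.X (p + -1)))) ≫ G₁.map (L.d (p + -1) p) := by
    rintro m rfl
    simp [d_csnd γ L (m + -1) m (by lia)]
    abel
  exact key (p + 1 + -1) (by lia)

variable {L M}

@[reassoc (attr := simp)]
lemma kmap_kfst (f : L ⟶ M) (p : ℤ) :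
    ((coconeF γ).map f).f p ≫ kfst γ M p = kfst γ L p ≫ G₀.map (f.f p) := by
  simp [kfst, coconeF]

@[reassoc (attr := simp)]
lemma kmap_ksnd (f : L ⟶ M) (p q : ℤ) (h : q + 1 = p) :
    ((coconeF γ).map f).f p ≫ ksnd γ M p q h = ksnd γ L p q h ≫ G₁.map (f.f q) := by
  obtain rfl : q = p + -1 := by lia
  simp [ksnd, coconeF]

/-- Morphisms to the cocone. -/
noncomputable def klift {N : CochainComplex B ℤ} (b : ∀ p, N.X p ⟶ G₀.obj (L.X p))
    (a : ∀ p q, q + 1 = p → (N.X p ⟶ G₁.obj (L.X q)))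
    (hb : ∀ p q, p + 1 = q → N.d p q ≫ b q = b p ≫ G₀.map (L.d p q))
    (ha : ∀ p q r (h : r + 1 = p) (h' : p + 1 = q), N.d p q ≫ a q p h' =
      -(b p ≫ γ.app (L.X p)) - a p r h ≫ G₁.map (L.d r p)) : N ⟶ (coconeF γ).obj L where
  f p := b p ≫ kinl γ L p + a p (p - 1) (by lia) ≫ kinr γ L p (p - 1) (by lia)
  comm' := by
    rintro p _ rfl
    apply kext_to γ (p + 1) p rfl
    · simp [hb p (p + 1) rfl]
    · obtain ⟨r, hr⟩ : ∃ r, r + 1 = p := ⟨p - 1, by lia⟩
      rw [assoc, kd_ksnd γ L p (p + 1) r hr rfl]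
      have h1 : p - 1 = r := by lia
      have h2 : p + 1 - 1 = p := by lia
      have key1 : ∀ m (hm : m = r), (b p ≫ kinl γ L p +
          a p m (by lia) ≫ kinr γ L p m (by lia)) ≫ ksnd γ L p r hr = a p r hr := by
        rintro m rfl
        simp
      have key2 : ∀ m (hm : m = p), (b (p + 1) ≫ kinl γ L (p + 1) +
          a (p + 1) m (by lia) ≫ kinr γ L (p + 1) m (by lia)) ≫ ksnd γ L (p + 1) p rfl =
          a (p + 1) p rfl := by
        rintro m rfl
        simp
      rw [assoc, key2 _ h2, comp_sub, comp_neg, ← assoc, ← assoc, key1 _ h1,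
        ha p (p + 1) r hr rfl]
      simp

@[reassoc (attr := simp)]
lemma klift_kfst {N : CochainComplex B ℤ} (b : ∀ p, N.X p ⟶ G₀.obj (L.X p))
    (a : ∀ p q, q + 1 = p → (N.X p ⟶ G₁.obj (L.X q))) (hb) (ha) (p : ℤ) :
    (klift γ b a hb ha).f p ≫ kfst γ L p = b p := by
  simp [klift]

@[reassoc (attr := simp)]
lemma klift_ksnd {N : CochainComplex B ℤ} (b : ∀ p, N.X p ⟶ G₀.obj (L.X p))
    (a : ∀ p q, q + 1 = p → (N.X p ⟶ G₁.obj (L.X q))) (hb) (ha) (p q : ℤ) (h : q + 1 = p) :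
    (klift γ b a hb ha).f p ≫ ksnd γ L p q h = a p q h := by
  obtain rfl : q = p - 1 := by lia
  simp [klift]

end Cocone

section Cone

variable {F₁ F₀ : A ⥤ B} [F₁.Additive] [F₀.Additive] (φ : F₁ ⟶ F₀) {K : CochainComplex A ℤ}
  {L : CochainComplex B ℤ}

/-- Morphisms from the cone. -/
noncomputable def cdesc (a : ∀ p q, q + 1 = p → (F₁.obj (K.X p) ⟶ L.X q))
    (b : ∀ p, F₀.obj (K.X p) ⟶ L.X p)
    (hb : ∀ p q, p + 1 = q → b p ≫ L.d p q = F₀.map (K.d p q) ≫ b q)
    (ha : ∀ p q r (h : q + 1 = p) (h' : p + 1 = r), a p q h ≫ L.d q p =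
      φ.app (K.X p) ≫ b p - F₁.map (K.d p r) ≫ a r p h') : (coneF φ).obj K ⟶ L where
  f p := cfst φ K p (p + 1) rfl ≫ a (p + 1) p rfl + csnd φ K p ≫ b p
  comm' := by
    rintro p _ rfl
    apply cext_from φ p (p + 1) rfl
    · rw [cinl_d_assoc φ K (p + 1) p (p + 1 + 1) rfl rfl]
      simp [ha (p + 1) p (p + 1 + 1) rfl rfl]
      abel
    · simp [hb p (p + 1) rfl]

@[reassoc (attr := simp)]
lemma cinl_cdesc (a : ∀ p q, q + 1 = p → (F₁.obj (K.X p) ⟶ L.X q))
    (b : ∀ p, F₀.obj (K.X p) ⟶ L.X p) (hb) (ha) (p q : ℤ) (h : q + 1 = p) :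
    cinl φ K p q h ≫ (cdesc φ a b hb ha).f q = a p q h := by
  subst h
  simp [cdesc]

@[reassoc (attr := simp)]
lemma cinr_cdesc (a : ∀ p q, q + 1 = p → (F₁.obj (K.X p) ⟶ L.X q))
    (b : ∀ p, F₀.obj (K.X p) ⟶ L.X p) (hb) (ha) (p : ℤ) :
    cinr φ K p ≫ (cdesc φ a b hb ha).f p = b p := by
  simp [cdesc]

end Cone

section Adj

variable {F₁ F₀ : A ⥤ B} [F₁.Additive] [F₀.Additive] (φ : F₁ ⟶ F₀)
  {G₀ G₁ : B ⥤ A} [G₀.Additive] [G₁.Additive] (γ : G₀ ⟶ G₁) (adj₁ : F₁ ⊣ G₁) (adj₀ : F₀ ⊣ G₀)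
  (hc : ∀ (M : A) (N : B) (f : F₀.obj M ⟶ N),
    adj₁.homEquiv M N (φ.app M ≫ f) = adj₀.homEquiv M N f ≫ γ.app N)

include hc in
lemma hc_symm (M : A) (N : B) (f : M ⟶ G₀.obj N) :
    φ.app M ≫ (adj₀.homEquiv M N).symm f = (adj₁.homEquiv M N).symm (f ≫ γ.app N) := by
  apply (adj₁.homEquiv M N).injective
  rw [hc]
  simp

/-- The bijection on morphisms. -/
noncomputable def cHomEquiv (hc : ∀ (M : A) (N : B) (f : F₀.obj M ⟶ N),
    adj₁.homEquiv M N (φ.app M ≫ f) = adj₀.homEquiv M N f ≫ γ.app N)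
    (K : CochainComplex A ℤ) (L : CochainComplex B ℤ) :
    ((coneF φ).obj K ⟶ L) ≃ (K ⟶ (coconeF γ).obj L) where
  toFun f := klift γ (fun p => adj₀.homEquiv _ _ (cinr φ K p ≫ f.f p))
    (fun p q h => -adj₁.homEquiv _ _ (cinl φ K p q h ≫ f.f q))
    (by
      rintro p q h
      rw [← adj₀.homEquiv_naturality_left, ← adj₀.homEquiv_naturality_right, assoc, f.comm,
        cinr_d_assoc])
    (by
      rintro p q r h h'
      rw [comp_neg, neg_comp, ← adj₁.homEquiv_naturality_left, ← hc,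
        ← adj₁.homEquiv_naturality_right, assoc, f.comm, cinl_d_assoc φ K p r q h h', sub_comp,
        adj₁.homAddEquiv_sub, assoc, assoc]
      abel)
  invFun g := cdesc φ (fun p q h => -(adj₁.homEquiv _ _).symm (g.f p ≫ ksnd γ L p q h))
    (fun p => (adj₀.homEquiv _ _).symm (g.f p ≫ kfst γ L p))
    (by
      rintro p q h
      rw [← adj₀.homEquiv_naturality_left_symm, ← adj₀.homEquiv_naturality_right_symm, assoc,
        ← kd_kfst, g.comm_assoc])
    (by
      rintro p q r h h'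
      rw [hc_symm φ γ adj₁ adj₀ hc, comp_neg, neg_comp, ← adj₁.homEquiv_naturality_left_symm,
        ← adj₁.homEquiv_naturality_right_symm, ← g.comm_assoc, kd_ksnd γ L p r q h h',
        comp_sub, comp_neg, adj₁.homAddEquiv_symm_sub, adj₁.homAddEquiv_symm_neg, assoc, assoc]
      abel)
  left_inv f := by
    ext p
    apply cext_from φ p (p + 1) rfl
    · simp
    · simp
  right_inv g := by
    ext p
    apply kext_to γ p (p - 1) (by lia)
    · simp
    · simp

/-- The adjunction between the cone functor and the cocone functor. -/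
noncomputable def cAdj (hc : ∀ (M : A) (N : B) (f : F₀.obj M ⟶ N),
    adj₁.homEquiv M N (φ.app M ≫ f) = adj₀.homEquiv M N f ≫ γ.app N) :
    coneF φ ⊣ coconeF γ :=
  Adjunction.mkOfHomEquiv
    { homEquiv := fun K L => cHomEquiv φ γ adj₁ adj₀ hc K L
      homEquiv_naturality_left_symm := by
        intro K' K L f g
        ext p
        apply cext_from φ p (p + 1) rfl
        · simp [cHomEquiv, adj₁.homEquiv_naturality_left_symm]
        · simp [cHomEquiv, adj₀.homEquiv_naturality_left_symm]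
      homEquiv_naturality_right := by
        intro K L L' f g
        ext p
        apply kext_to γ p (p - 1) (by lia)
        · simp [cHomEquiv, ← adj₀.homEquiv_naturality_right]
        · simp [cHomEquiv, ← adj₁.homEquiv_naturality_right] }

end Adj

end DBr
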