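import Mathlib

/-! Cone functors of natural transformations of additive functors on cochain complexes:
commutation with the shift and the comparison with mapping cones. -/

open CategoryTheory Category Limits Preadditive CochainComplex CochainComplex.HomComplex
open Pretriangulated

set_option backward.defeqAttrib.useBackward true
set_option backward.isDefEq.respectTransparency false

namespace DBr

universe v₁ v₂ u₁ u₂

variable {A : Type u₁} {B : Type u₂} [Category.{v₁} A] [Category.{v₂} B] [Preadditive A]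
  [Preadditive B] [HasBinaryBiproducts B] {F₁ F₀ : A ⥤ B} [F₁.Additive] [F₀.Additive]
  (φ : F₁ ⟶ F₀)

/-- The map of complexes given by a natural transformation. -/
abbrev nat (K : CochainComplex A ℤ) :
    (F₁.mapHomologicalComplex (ComplexShape.up ℤ)).obj K ⟶
      (F₀.mapHomologicalComplex (ComplexShape.up ℤ)).obj K :=
  (NatTrans.mapHomologicalComplex φ (ComplexShape.up ℤ)).app K

/-- The functor which sends a complex to the mapping cone of a natural transformation. -/
noncomputable def coneF : CochainComplex A ℤ ⥤ CochainComplex B ℤ where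
  obj K := mappingCone (nat φ K)
  map {K L} f := mappingCone.map (nat φ K) (nat φ L)
    ((F₁.mapHomologicalComplex (ComplexShape.up ℤ)).map f)
    ((F₀.mapHomologicalComplex (ComplexShape.up ℤ)).map f)
    ((NatTrans.mapHomologicalComplex φ (ComplexShape.up ℤ)).naturality f).symm
  map_id K := by
    simp only [CategoryTheory.Functor.map_id]
    exact mappingCone.map_id _
  map_comp {K L M} f g := by
    simp only [CategoryTheory.Functor.map_comp]
    exact mappingCone.map_comp _ _ _ _ _ _ _ _ _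

section API

variable (K L : CochainComplex A ℤ)

/-- First inclusion. -/
noncomputable def cinl (p q : ℤ) (h : q + 1 = p) : F₁.obj (K.X p) ⟶ ((coneF φ).obj K).X q :=
  (mappingCone.inl (nat φ K)).v p q (by lia)

/-- Second inclusion. -/
noncomputable def cinr (p : ℤ) : F₀.obj (K.X p) ⟶ ((coneF φ).obj K).X p :=
  (mappingCone.inr (nat φ K)).f p

/-- First projection. -/
noncomputable def cfst (p q : ℤ) (h : p + 1 = q) : ((coneF φ).obj K).X p ⟶ F₁.obj (K.X q) :=
  (mappingCone.fst (nat φ K)).1.v p q h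

/-- Second projection. -/
noncomputable def csnd (p : ℤ) : ((coneF φ).obj K).X p ⟶ F₀.obj (K.X p) :=
  (mappingCone.snd (nat φ K)).v p p (add_zero p)

@[reassoc (attr := simp)]
lemma cinl_cfst (p q : ℤ) (h : q + 1 = p) : cinl φ K p q h ≫ cfst φ K q p h = 𝟙 _ :=
  mappingCone.inl_v_fst_v (nat φ K) p q h

@[reassoc (attr := simp)]
lemma cinl_csnd (p q : ℤ) (h : q + 1 = p) : cinl φ K p q h ≫ csnd φ K q = 0 :=
  mappingCone.inl_v_snd_v (nat φ K) p q (by lia)

@[reassoc (attr := simp)]
lemma cinr_cfst (p q : ℤ) (h : p + 1 = q) : cinr φ K p ≫ cfst φ K p q h = 0 :=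
  mappingCone.inr_f_fst_v (nat φ K) p q h

@[reassoc (attr := simp)]
lemma cinr_csnd (p : ℤ) : cinr φ K p ≫ csnd φ K p = 𝟙 _ :=
  mappingCone.inr_f_snd_v (nat φ K) p

lemma cid (p q : ℤ) (h : p + 1 = q) :
    cfst φ K p q h ≫ cinl φ K q p h + csnd φ K p ≫ cinr φ K p = 𝟙 _ :=
  mappingCone.id_X (nat φ K) p q h

variable {K}

lemma cext_from (p q : ℤ) (h : p + 1 = q) {Z : B} {f g : ((coneF φ).obj K).X p ⟶ Z}
    (h₁ : cinl φ K q p h ≫ f = cinl φ K q p h ≫ g) (h₂ : cinr φ K p ≫ f = cinr φ K p ≫ g) :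
    f = g :=
  mappingCone.ext_from (nat φ K) q p h h₁ h₂

lemma cext_to (p q : ℤ) (h : p + 1 = q) {Z : B} {f g : Z ⟶ ((coneF φ).obj K).X p}
    (h₁ : f ≫ cfst φ K p q h = g ≫ cfst φ K p q h) (h₂ : f ≫ csnd φ K p = g ≫ csnd φ K p) :
    f = g :=
  mappingCone.ext_to (nat φ K) p q h h₁ h₂

variable (K)

@[reassoc]
lemma cinl_d (p q r : ℤ) (h : q + 1 = p) (h' : p + 1 = r) :
    cinl φ K p q h ≫ ((coneF φ).obj K).d q p =
      φ.app (K.X p) ≫ cinr φ K p - F₁.map (K.d p r) ≫ cinl φ K r p h' :=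
  mappingCone.inl_v_d (nat φ K) p q r (by lia) (by lia)

@[reassoc (attr := simp)]
lemma cinr_d (p q : ℤ) :
    cinr φ K p ≫ ((coneF φ).obj K).d p q = F₀.map (K.d p q) ≫ cinr φ K q :=
  mappingCone.inr_f_d (nat φ K) p q

@[reassoc]
lemma d_cfst (p q r : ℤ) (h : p + 1 = q) (h' : q + 1 = r) :
    ((coneF φ).obj K).d p q ≫ cfst φ K q r h' = -cfst φ K p q h ≫ F₁.map (K.d q r) :=
  mappingCone.d_fst_v (nat φ K) p q r h h'

@[reassoc]
lemma d_csnd (p q : ℤ) (h : p + 1 = q) :
    ((coneF φ).obj K).d p q ≫ csnd φ K q =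
      cfst φ K p q h ≫ φ.app (K.X q) + csnd φ K p ≫ F₀.map (K.d p q) :=
  mappingCone.d_snd_v (nat φ K) p q h

variable {K L}

@[reassoc (attr := simp)]
lemma cinl_map (f : K ⟶ L) (p q : ℤ) (h : q + 1 = p) :
    cinl φ K p q h ≫ ((coneF φ).map f).f q = F₁.map (f.f p) ≫ cinl φ L p q h := by
  dsimp [coneF, mappingCone.map, cinl]
  simp

@[reassoc (attr := simp)]
lemma cinr_map (f : K ⟶ L) (p : ℤ) :
    cinr φ K p ≫ ((coneF φ).map f).f p = F₀.map (f.f p) ≫ cinr φ L p := by
  dsimp [coneF, mappingCone.map, cinr]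
  simp

@[reassoc (attr := simp)]
lemma map_cfst (f : K ⟶ L) (p q : ℤ) (h : p + 1 = q) :
    ((coneF φ).map f).f p ≫ cfst φ L p q h = cfst φ K p q h ≫ F₁.map (f.f q) := by
  apply cext_from φ p q h
  · simp
  · simp

@[reassoc (attr := simp)]
lemma map_csnd (f : K ⟶ L) (p : ℤ) :
    ((coneF φ).map f).f p ≫ csnd φ L p = csnd φ K p ≫ F₀.map (f.f p) := by
  apply cext_from φ p (p + 1) rfl
  · simp
  · simp

end API

instance : (coneF φ).Additive where
  map_add {K L f g} := by
    ext p
    apply cext_from φ p (p + 1) rfl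
    · simp
    · simp

/-- The components of the comparison of the cone functor with the shift. -/
@[simps]
noncomputable def coneShiftX (K : CochainComplex A ℤ) (n p : ℤ) :
    ((coneF φ).obj (K⟦n⟧)).X p ≅ (((coneF φ).obj K)⟦n⟧).X p where
  hom := cfst φ (K⟦n⟧) p (p + 1) rfl ≫ (n.negOnePow • cinl φ K (p + 1 + n) (p + n) (by lia)) +
    csnd φ (K⟦n⟧) p ≫ cinr φ K (p + n)
  inv := cfst φ K (p + n) (p + 1 + n) (by lia) ≫
      (n.negOnePow • cinl φ (K⟦n⟧) (p + 1) p (by lia)) +
    csnd φ K (p + n) ≫ cinr φ (K⟦n⟧) p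
  hom_inv_id := by
    apply cext_from φ p (p + 1) rfl
    · simp [smul_smul]
    · simp
  inv_hom_id := by
    apply cext_from φ (p + n) (p + 1 + n) (by lia)
    · simp [smul_smul]
    · simp

/-- The comparison of the cone functor with the shift. -/
noncomputable def coneShiftIso (K : CochainComplex A ℤ) (n : ℤ) :
    (coneF φ).obj (K⟦n⟧) ≅ ((coneF φ).obj K)⟦n⟧ :=
  HomologicalComplex.Hom.isoOfComponents (fun p => coneShiftX φ K n p) (by
    rintro p _ rfl
    apply cext_from φ p (p + 1) rfl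
    · rw [cinl_d_assoc φ (K⟦n⟧) (p + 1) p (p + 1 + 1) rfl rfl]
      simp [smul_smul, cinl_d φ K (p + 1 + n) (p + n) (p + 1 + 1 + n) (by lia) (by lia)]
      abel
    · simp)

@[reassoc (attr := simp)]
lemma cinl_coneShiftIso_hom (K : CochainComplex A ℤ) (n p q : ℤ) (h : q + 1 = p) :
    cinl φ (K⟦n⟧) p q h ≫ (coneShiftIso φ K n).hom.f q =
      n.negOnePow • cinl φ K (p + n) (q + n) (by lia) := by
  subst h
  dsimp [coneShiftIso]
  simp

@[reassoc (attr := simp)]
lemma cinr_coneShiftIso_hom (K : CochainComplex A ℤ) (n p : ℤ) :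
    cinr φ (K⟦n⟧) p ≫ (coneShiftIso φ K n).hom.f p = cinr φ K (p + n) := by
  dsimp [coneShiftIso]
  simp

lemma cinl_XIso (K : CochainComplex A ℤ) (p q p' q' : ℤ) (h : q + 1 = p) (h' : q' + 1 = p')
    (hp : p = p') (hq : q = q') :
    F₁.map (HomologicalComplex.XIsoOfEq K hp).hom ≫ cinl φ K p' q' h' ≫
      (HomologicalComplex.XIsoOfEq ((coneF φ).obj K) hq).inv = cinl φ K p q h := by
  subst hp hq
  simp

lemma cinr_XIso (K : CochainComplex A ℤ) (p p' : ℤ) (hp : p = p') :
    F₀.map (HomologicalComplex.XIsoOfEq K hp).hom ≫ cinr φ K p' ≫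
      (HomologicalComplex.XIsoOfEq ((coneF φ).obj K) hp).inv = cinr φ K p := by
  subst hp
  simp

/-- The cone functor commutes with the shifts. -/
noncomputable instance : (coneF φ).CommShift ℤ where
  commShiftIso n := NatIso.ofComponents (fun K => coneShiftIso φ K n) (by
    intro K L f
    ext p
    apply cext_from φ p (p + 1) rfl
    · simp
    · simp)
  commShiftIso_zero := by
    ext K p
    dsimp
    apply cext_from φ p (p + 1) rfl
    · simp [CochainComplex.shiftFunctorZero_eq, cinl_XIso]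
    · simp [CochainComplex.shiftFunctorZero_eq, cinr_XIso]
  commShiftIso_add a b := by
    ext K p
    dsimp
    apply cext_from φ p (p + 1) rfl
    · simp [CochainComplex.shiftFunctorAdd_eq, smul_smul, ← Int.negOnePow_add, add_comm b a]
      exact (cinl_XIso φ K _ _ _ _ _ _ (by lia) (by lia)).symm
    · simp [CochainComplex.shiftFunctorAdd_eq, cinr_XIso]

lemma commShiftIso_coneF_hom_app (K : CochainComplex A ℤ) (n : ℤ) :
    ((coneF φ).commShiftIso n).hom.app K = (coneShiftIso φ K n).hom := rfl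

end DBr
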