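import Pool.Agent.DBr.Cone

/-! The cone functor of a natural transformation respects mapping cones. -/

open CategoryTheory Category Limits Preadditive CochainComplex CochainComplex.HomComplex
open Pretriangulated

set_option backward.defeqAttrib.useBackward true
set_option backward.isDefEq.respectTransparency false
set_option linter.unusedSectionVars false

namespace DBr

universe v₁ v₂ u₁ u₂

variable {A : Type u₁} {B : Type u₂} [Category.{v₁} A] [Category.{v₂} B] [Preadditive A]
  [Preadditive B] [HasBinaryBiproducts A] [HasBinaryBiproducts B]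

lemma mapExt (G : A ⥤ B) [G.Additive] {K L : CochainComplex A ℤ} (f : K ⟶ L) (i j : ℤ)
    (h : j + 1 = i) {Z : B} {a b : G.obj ((mappingCone f).X j) ⟶ Z}
    (h₁ : G.map ((mappingCone.inl f).v i j (by lia)) ≫ a =
      G.map ((mappingCone.inl f).v i j (by lia)) ≫ b)
    (h₂ : G.map ((mappingCone.inr f).f j) ≫ a = G.map ((mappingCone.inr f).f j) ≫ b) :
    a = b := by
  rw [← id_comp a, ← id_comp b, ← G.map_id, ← mappingCone.id_X f j i h, G.map_add,
    G.map_comp, G.map_comp, add_comp, add_comp, assoc, assoc, assoc, assoc, h₁, h₂]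

section

variable (G : A ⥤ B) [G.Additive] {K L : CochainComplex A ℤ} (f : K ⟶ L)

@[reassoc (attr := simp)]
lemma Ginl_fst (p q : ℤ) (h : q + 1 = p) :
    G.map ((mappingCone.inl f).v p q (by lia)) ≫ G.map ((mappingCone.fst f).1.v q p h) = 𝟙 _ := by
  rw [← G.map_comp, mappingCone.inl_v_fst_v, G.map_id]

@[reassoc (attr := simp)]
lemma Ginl_snd (p q : ℤ) (h : p + (-1) = q) :
    G.map ((mappingCone.inl f).v p q h) ≫
      G.map ((mappingCone.snd f).v q q (add_zero q)) = 0 := by
  rw [← G.map_comp, mappingCone.inl_v_snd_v, G.map_zero]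

@[reassoc (attr := simp)]
lemma Ginr_fst (p q : ℤ) (h : p + 1 = q) :
    G.map ((mappingCone.inr f).f p) ≫ G.map ((mappingCone.fst f).1.v p q h) = 0 := by
  rw [← G.map_comp, mappingCone.inr_f_fst_v, G.map_zero]

@[reassoc (attr := simp)]
lemma Ginr_snd (p : ℤ) :
    G.map ((mappingCone.inr f).f p) ≫ G.map ((mappingCone.snd f).v p p (add_zero p)) = 𝟙 _ := by
  rw [← G.map_comp, mappingCone.inr_f_snd_v, G.map_id]

@[reassoc (attr := simp)]
lemma Ginr_d (p q : ℤ) :
    G.map ((mappingCone.inr f).f p) ≫ G.map ((mappingCone f).d p q) =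
      G.map (L.d p q) ≫ G.map ((mappingCone.inr f).f q) := by
  rw [← G.map_comp, mappingCone.inr_f_d, G.map_comp]

@[reassoc]
lemma Ginl_d (p q r : ℤ) (h : p + 1 = q) (h' : q + 1 = r) :
    G.map ((mappingCone.inl f).v q p (by lia)) ≫ G.map ((mappingCone f).d p q) =
      G.map (f.f q) ≫ G.map ((mappingCone.inr f).f q) -
        G.map (K.d q r) ≫ G.map ((mappingCone.inl f).v r q (by lia)) := by
  rw [← G.map_comp, mappingCone.inl_v_d f q p r (by lia) (by lia), G.map_sub, G.map_comp,
    G.map_comp]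

end

variable {F₁ F₀ : A ⥤ B} [F₁.Additive] [F₀.Additive] (φ : F₁ ⟶ F₀) {K L : CochainComplex A ℤ}
  (f : K ⟶ L)

lemma ccext (p q r : ℤ) (h : p + 1 = q) (h' : q + 1 = r) {Z : B}
    {a b : ((coneF φ).obj (mappingCone f)).X p ⟶ Z}
    (h₁ : F₁.map ((mappingCone.inl f).v r q (by lia)) ≫ cinl φ (mappingCone f) q p h ≫ a =
      F₁.map ((mappingCone.inl f).v r q (by lia)) ≫ cinl φ (mappingCone f) q p h ≫ b)
    (h₂ : F₁.map ((mappingCone.inr f).f q) ≫ cinl φ (mappingCone f) q p h ≫ a =
      F₁.map ((mappingCone.inr f).f q) ≫ cinl φ (mappingCone f) q p h ≫ b)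
    (h₃ : F₀.map ((mappingCone.inl f).v q p (by lia)) ≫ cinr φ (mappingCone f) p ≫ a =
      F₀.map ((mappingCone.inl f).v q p (by lia)) ≫ cinr φ (mappingCone f) p ≫ b)
    (h₄ : F₀.map ((mappingCone.inr f).f p) ≫ cinr φ (mappingCone f) p ≫ a =
      F₀.map ((mappingCone.inr f).f p) ≫ cinr φ (mappingCone f) p ≫ b) : a = b :=
  cext_from φ p q h (mapExt F₁ f r q h' h₁ h₂) (mapExt F₀ f q p h h₃ h₄)

/-- Components of the comparison. -/
@[simps]
noncomputable def cconeX (p q r : ℤ) (h : p + 1 = q) (h' : q + 1 = r) :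
    ((coneF φ).obj (mappingCone f)).X p ≅ (mappingCone ((coneF φ).map f)).X p where
  hom := cfst φ (mappingCone f) p q h ≫
      (F₁.map ((mappingCone.snd f).v q q (add_zero q)) ≫ cinl φ L q p h ≫
          (mappingCone.inr ((coneF φ).map f)).f p -
        F₁.map ((mappingCone.fst f).1.v q r h') ≫ cinl φ K r q h' ≫
          (mappingCone.inl ((coneF φ).map f)).v q p (by lia)) +
    csnd φ (mappingCone f) p ≫
      (F₀.map ((mappingCone.fst f).1.v p q h) ≫ cinr φ K q ≫
          (mappingCone.inl ((coneF φ).map f)).v q p (by lia) +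
        F₀.map ((mappingCone.snd f).v p p (add_zero p)) ≫ cinr φ L p ≫
          (mappingCone.inr ((coneF φ).map f)).f p)
  inv := (mappingCone.fst ((coneF φ).map f)).1.v p q h ≫
      (csnd φ K q ≫ F₀.map ((mappingCone.inl f).v q p (by lia)) ≫ cinr φ (mappingCone f) p -
        cfst φ K q r h' ≫ F₁.map ((mappingCone.inl f).v r q (by lia)) ≫
          cinl φ (mappingCone f) q p h) +
    (mappingCone.snd ((coneF φ).map f)).v p p (add_zero p) ≫
      (cfst φ L p q h ≫ F₁.map ((mappingCone.inr f).f q) ≫ cinl φ (mappingCone f) q p h +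
        csnd φ L p ≫ F₀.map ((mappingCone.inr f).f p) ≫ cinr φ (mappingCone f) p)
  hom_inv_id := by
    apply ccext φ f p q r h h'
    · simp
    · simp
    · simp
    · simp
  inv_hom_id := by
    rw [mappingCone.ext_from_iff _ q p h]
    constructor
    · apply cext_from φ q r h'
      · simp
      · simp
    · apply cext_from φ p q h
      · simp
      · simp


/-- The comparison of the image of a mapping cone with the mapping cone of the image. -/
noncomputable def cconeIso :
    (coneF φ).obj (mappingCone f) ≅ mappingCone ((coneF φ).map f) :=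
  HomologicalComplex.Hom.isoOfComponents
    (fun p => cconeX φ f p (p + 1) (p + 1 + 1) rfl rfl) (by
    rintro p _ rfl
    apply ccext φ f p (p + 1) (p + 1 + 1) rfl rfl
    · rw [cinl_d_assoc φ (mappingCone f) (p + 1) p (p + 1 + 1) rfl rfl]
      simp [Ginl_d_assoc F₁ f (p + 1) (p + 1 + 1) (p + 1 + 1 + 1) rfl rfl,
        mappingCone.inl_v_d ((coneF φ).map f) (p + 1) p (p + 1 + 1) (by lia) (by lia),
        cinl_d_assoc φ K (p + 1 + 1) (p + 1) (p + 1 + 1 + 1) rfl rfl]
      abel
    · rw [cinl_d_assoc φ (mappingCone f) (p + 1) p (p + 1 + 1) rfl rfl]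
      simp [cinl_d_assoc φ L (p + 1) p (p + 1 + 1) rfl rfl]
      abel
    · simp [Ginl_d_assoc F₀ f p (p + 1) (p + 1 + 1) rfl rfl,
        mappingCone.inl_v_d ((coneF φ).map f) (p + 1) p (p + 1 + 1) (by lia) (by lia)]
      abel
    · simp)

@[reassoc (attr := simp)]
lemma cinl_cconeIso_hom_inl (p q r : ℤ) (h : p + 1 = q) (h' : q + 1 = r) :
    F₁.map ((mappingCone.inl f).v r q (by lia)) ≫ cinl φ (mappingCone f) q p h ≫
      (cconeIso φ f).hom.f p =
    -(cinl φ K r q h' ≫ (mappingCone.inl ((coneF φ).map f)).v q p (by lia)) := by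
  subst h h'
  dsimp [cconeIso]
  simp

@[reassoc (attr := simp)]
lemma cinl_cconeIso_hom_inr (p q : ℤ) (h : p + 1 = q) :
    F₁.map ((mappingCone.inr f).f q) ≫ cinl φ (mappingCone f) q p h ≫
      (cconeIso φ f).hom.f p = cinl φ L q p h ≫ (mappingCone.inr ((coneF φ).map f)).f p := by
  subst h
  dsimp [cconeIso]
  simp

@[reassoc (attr := simp)]
lemma cinr_cconeIso_hom_inl (p q : ℤ) (h : p + 1 = q) :
    F₀.map ((mappingCone.inl f).v q p (by lia)) ≫ cinr φ (mappingCone f) p ≫
      (cconeIso φ f).hom.f p =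
    cinr φ K q ≫ (mappingCone.inl ((coneF φ).map f)).v q p (by lia) := by
  subst h
  dsimp [cconeIso]
  simp

@[reassoc (attr := simp)]
lemma cinr_cconeIso_hom_inr (p : ℤ) :
    F₀.map ((mappingCone.inr f).f p) ≫ cinr φ (mappingCone f) p ≫
      (cconeIso φ f).hom.f p = cinr φ L p ≫ (mappingCone.inr ((coneF φ).map f)).f p := by
  dsimp [cconeIso]
  simp

@[reassoc (attr := simp)]
lemma Ginl_mor₃ (G : A ⥤ B) [G.Additive] (p q : ℤ) (hpq : p + (-1) = q) :
    G.map ((mappingCone.inl f).v p q hpq) ≫ G.map ((mappingCone.triangle f).mor₃.f q) =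
      -G.map ((K.shiftFunctorObjXIso 1 q p (by rw [← hpq, neg_add_cancel_right])).inv) := by
  rw [← G.map_comp, mappingCone.inl_v_triangle_mor₃_f, G.map_neg]

@[reassoc (attr := simp)]
lemma Ginr_mor₃ (G : A ⥤ B) [G.Additive] (p : ℤ) :
    G.map ((mappingCone.inr f).f p) ≫ G.map ((mappingCone.triangle f).mor₃.f p) = 0 := by
  rw [← G.map_comp, mappingCone.inr_f_triangle_mor₃_f, G.map_zero]

/-- The image of the triangle of a mapping cone. -/
noncomputable def cconeTriangleIso :
    (coneF φ).mapTriangle.obj (mappingCone.triangle f) ≅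
      mappingCone.triangle ((coneF φ).map f) :=
  Triangle.isoMk _ _ (Iso.refl _) (Iso.refl _) (cconeIso φ f)
    (by simp)
    (by
      ext p
      dsimp
      apply cext_from φ p (p + 1) rfl
      · simp
      · simp)
    (by
      ext p
      dsimp
      apply ccext φ f p (p + 1) (p + 1 + 1) rfl rfl
      · simp [commShiftIso_coneF_hom_app]
      · simp [commShiftIso_coneF_hom_app]
      · simp [commShiftIso_coneF_hom_app]
      · simp [commShiftIso_coneF_hom_app])

end DBr
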