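import Pool.Agent.DBr.ConeTri

/-! Functors on derived categories induced by functors of complexes. -/

open CategoryTheory Category Limits Preadditive CochainComplex CochainComplex.HomComplex
open Pretriangulated

set_option backward.defeqAttrib.useBackward true
set_option backward.isDefEq.respectTransparency false
set_option linter.unusedSectionVars false

namespace DBr

universe w₁ w₂ v₁ v₂ u₁ u₂

variable {A : Type u₁} {B : Type u₂} [Category.{v₁} A] [Category.{v₂} B] [Abelian A]
  [Abelian B] [HasDerivedCategory.{w₁} A] [HasDerivedCategory.{w₂} B]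

section

variable (Φ : CochainComplex A ℤ ⥤ CochainComplex B ℤ)
  (hΦ : ∀ ⦃K L : CochainComplex A ℤ⦄ (f : K ⟶ L), QuasiIso f → QuasiIso (Φ.map f))

lemma derF_inverts (hΦ : ∀ ⦃K L : CochainComplex A ℤ⦄ (f : K ⟶ L), QuasiIso f →
      QuasiIso (Φ.map f)) :
    (HomologicalComplex.quasiIso A (ComplexShape.up ℤ)).IsInvertedBy
      (Φ ⋙ DerivedCategory.Q) := by
  intro K L f hf
  have := hΦ f hf
  dsimp
  infer_instance

/-- The functor on derived categories induced by a functor of complexes which preserves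
quasi-isomorphisms. -/
noncomputable def derF (hΦ : ∀ ⦃K L : CochainComplex A ℤ⦄ (f : K ⟶ L), QuasiIso f →
      QuasiIso (Φ.map f)) : DerivedCategory A ⥤ DerivedCategory B :=
  Localization.lift (Φ ⋙ DerivedCategory.Q) (derF_inverts Φ hΦ) DerivedCategory.Q

noncomputable instance : Localization.Lifting DerivedCategory.Q
    (HomologicalComplex.quasiIso A (ComplexShape.up ℤ)) (Φ ⋙ DerivedCategory.Q) (derF Φ hΦ) :=
  inferInstanceAs (Localization.Lifting _ _ _ (Localization.lift _ _ _))

/-- The comparison. -/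
noncomputable def derFIso : DerivedCategory.Q ⋙ derF Φ hΦ ≅ Φ ⋙ DerivedCategory.Q :=
  Localization.Lifting.iso DerivedCategory.Q
    (HomologicalComplex.quasiIso A (ComplexShape.up ℤ)) (Φ ⋙ DerivedCategory.Q) (derF Φ hΦ)

variable [Φ.CommShift ℤ]

noncomputable instance derF_commShift : (derF Φ hΦ).CommShift ℤ :=
  Functor.commShiftOfLocalization DerivedCategory.Q
    (HomologicalComplex.quasiIso A (ComplexShape.up ℤ)) ℤ (Φ ⋙ DerivedCategory.Q) (derF Φ hΦ)

instance : NatTrans.CommShift (derFIso Φ hΦ).hom ℤ :=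
  NatTrans.commShift_iso_hom_of_localization DerivedCategory.Q
    (HomologicalComplex.quasiIso A (ComplexShape.up ℤ)) ℤ (Φ ⋙ DerivedCategory.Q) (derF Φ hΦ)

lemma derF_isTriangulated
    (ht : ∀ ⦃K L : CochainComplex A ℤ⦄ (f : K ⟶ L),
      Nonempty (Φ.mapTriangle.obj (mappingCone.triangle f) ≅ mappingCone.triangle (Φ.map f))) :
    (derF Φ hΦ).IsTriangulated where
  map_distinguished T hT := by
    rw [DerivedCategory.mem_distTriang_iff] at hT
    obtain ⟨K, L, f, ⟨e⟩⟩ := hT
    obtain ⟨t⟩ := ht f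
    rw [DerivedCategory.mem_distTriang_iff]
    refine ⟨_, _, Φ.map f, ⟨(derF Φ hΦ).mapTriangle.mapIso e ≪≫ ?_⟩⟩
    exact (Functor.mapTriangleCompIso DerivedCategory.Q (derF Φ hΦ)).symm.app _ ≪≫
      (Functor.mapTriangleIso (derFIso Φ hΦ)).app _ ≪≫
      (Functor.mapTriangleCompIso Φ DerivedCategory.Q).app _ ≪≫
      DerivedCategory.Q.mapTriangle.mapIso t

end

section

variable {F₁ F₀ : A ⥤ B} [F₁.Additive] [F₀.Additive] (φ : F₁ ⟶ F₀)
  [F₁.PreservesHomology] [F₀.PreservesHomology]

lemma quasiIso_coneF ⦃K L : CochainComplex A ℤ⦄ (f : K ⟶ L) (hf : QuasiIso f) :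
    QuasiIso ((coneF φ).map f) := by
  rw [← DerivedCategory.isIso_Q_map_iff_quasiIso]
  let m := DerivedCategory.Q.mapTriangle.map (mappingCone.triangleMap (nat φ K) (nat φ L)
    ((F₁.mapHomologicalComplex (ComplexShape.up ℤ)).map f)
    ((F₀.mapHomologicalComplex (ComplexShape.up ℤ)).map f)
    ((NatTrans.mapHomologicalComplex φ (ComplexShape.up ℤ)).naturality f).symm)
  have h1 : IsIso m.hom₁ := by
    dsimp [m]
    infer_instance
  have h2 : IsIso m.hom₂ := by
    dsimp [m]
    infer_instance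
  exact isIso₃_of_isIso₁₂ m (DerivedCategory.mappingCone_triangle_distinguished _)
    (DerivedCategory.mappingCone_triangle_distinguished _) h1 h2

end

end DBr
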