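import Pool.Agent.DBr.Unit
import Pool.Agent.UBlocks.Derived

/-! The equivalence of derived categories. -/

open CategoryTheory Category Limits Preadditive CochainComplex CochainComplex.HomComplex
open Pretriangulated

set_option backward.defeqAttrib.useBackward true
set_option backward.isDefEq.respectTransparency false
set_option linter.unusedSectionVars false

namespace DBr

universe w₁ w₂ v₁ v₂ u₁ u₂

variable {A : Type u₁} {B : Type u₂} [Category.{v₁} A] [Category.{v₂} B] [Abelian A]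
  [Abelian B] [HasDerivedCategory.{w₁} A] [HasDerivedCategory.{w₂} B]
  {F₁ F₀ : A ⥤ B} [F₁.Additive] [F₀.Additive] (φ : F₁ ⟶ F₀)
  {G₀ G₁ : B ⥤ A} [G₀.Additive] [G₁.Additive] (γ : G₀ ⟶ G₁) (adj₁ : F₁ ⊣ G₁) (adj₀ : F₀ ⊣ G₀)
  (hc : ∀ (M : A) (N : B) (f : F₀.obj M ⟶ N),
    adj₁.homEquiv M N (φ.app M ≫ f) = adj₀.homEquiv M N f ≫ γ.app N)
  [F₁.PreservesHomology] [F₀.PreservesHomology] [G₁.PreservesHomology] [G₀.PreservesHomology]

omit [HasDerivedCategory.{w₁} A] in
lemma quasiIso_coconeF ⦃K L : CochainComplex B ℤ⦄ (f : K ⟶ L) (hf : QuasiIso f) :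
    QuasiIso ((coconeF γ).map f) := by
  have _ : HasDerivedCategory A := HasDerivedCategory.standard A
  have h := quasiIso_coneF γ f hf
  dsimp [coconeF]
  infer_instance

/-- The left adjoint on derived categories. -/
noncomputable abbrev LF : DerivedCategory A ⥤ DerivedCategory B := derF (coneF φ) (quasiIso_coneF φ)

/-- The right adjoint on derived categories. -/
noncomputable abbrev RG : DerivedCategory B ⥤ DerivedCategory A :=
  derF (coconeF γ) (quasiIso_coconeF γ)

instance : (LF φ).IsTriangulated :=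
  derF_isTriangulated _ _ fun _ _ f => ⟨cconeTriangleIso φ f⟩

noncomputable instance : CatCommSq (coneF φ) DerivedCategory.Q DerivedCategory.Q (LF φ) :=
  ⟨(derFIso (coneF φ) (quasiIso_coneF φ)).symm⟩

noncomputable instance : CatCommSq (coconeF γ) DerivedCategory.Q DerivedCategory.Q (RG γ) :=
  ⟨(derFIso (coconeF γ) (quasiIso_coconeF γ)).symm⟩

/-- The adjunction on derived categories. -/
noncomputable def dAdj (hc : ∀ (M : A) (N : B) (f : F₀.obj M ⟶ N),
    adj₁.homEquiv M N (φ.app M ≫ f) = adj₀.homEquiv M N f ≫ γ.app N) : LF φ ⊣ RG γ :=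
  (cAdj φ γ adj₁ adj₀ hc).localization DerivedCategory.Q
    (HomologicalComplex.quasiIso A (ComplexShape.up ℤ)) DerivedCategory.Q
    (HomologicalComplex.quasiIso B (ComplexShape.up ℤ)) (LF φ) (RG γ)

variable {φ γ adj₁ adj₀}

lemma isIso_unit (h : ExSeq φ γ adj₁ adj₀) (X : DerivedCategory A) :
    IsIso ((dAdj φ γ adj₁ adj₀ hc).unit.app X) := by
  rw [NatTrans.isIso_app_iff_of_iso _ (DerivedCategory.Q.objObjPreimageIso X).symm]
  dsimp only [dAdj]
  rw [Adjunction.localization_unit_app]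
  have h1 : QuasiIso ((cAdj φ γ adj₁ adj₀ hc).unit.app (DerivedCategory.Q.objPreimage X)) :=
    chase hc h _
  infer_instance

omit [HasDerivedCategory.{w₁} A] [HasDerivedCategory.{w₂} B] in
lemma exact_of_cocone (hg : ∀ M : B, IsIso (γ.app M) → IsZero M) (L : CochainComplex B ℤ)
    (h : ∀ n, ((coconeF γ).obj L).ExactAt n) (n : ℤ) : L.ExactAt n := by
  have _ : HasDerivedCategory A := HasDerivedCategory.standard A
  have h1 : IsZero (DerivedCategory.Q.obj ((coneF γ).obj L)) := by
    have h2 : IsZero (DerivedCategory.Q.obj ((coconeF γ).obj L)) := (isZero_Q_iff _).2 h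
    have h3 : IsZero ((CategoryTheory.shiftFunctor (DerivedCategory A) (-1 : ℤ)).obj
        (DerivedCategory.Q.obj ((coneF γ).obj L))) :=
      h2.of_iso ((DerivedCategory.Q.commShiftIso (-1 : ℤ)).app ((coneF γ).obj L)).symm
    have h4 := (CategoryTheory.shiftFunctor (DerivedCategory A) (1 : ℤ)).map_isZero h3
    exact h4.of_iso (shiftNegShift (DerivedCategory.Q.obj ((coneF γ).obj L)) (1 : ℤ)).symm
  have h5 : IsIso (DerivedCategory.Q.map (nat γ L)) :=
    (Triangle.isZero₃_iff_isIso₁ _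
      (DerivedCategory.mappingCone_triangle_distinguished (nat γ L))).1 h1
  rw [DerivedCategory.isIso_Q_map_iff_quasiIso] at h5
  have h6 : IsIso (ShortComplex.homologyMap ((L.sc n).mapNatTrans γ)) := by
    have h7 := (quasiIsoAt_iff_isIso_homologyMap (nat γ L) n).1 inferInstance
    exact h7
  rw [ShortComplex.homologyMap_mapNatTrans] at h6
  rw [HomologicalComplex.exactAt_iff_isZero_homology]
  apply hg
  have h8 : γ.app (L.homology n) = ((L.sc n).mapHomologyIso G₀).inv ≫
    (((L.sc n).mapHomologyIso G₀).hom ≫ γ.app (L.sc n).homology ≫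
      ((L.sc n).mapHomologyIso G₁).inv) ≫ ((L.sc n).mapHomologyIso G₁).hom := by
    simp
    rfl
  rw [h8]
  infer_instance

lemma isZero_of_RG (hg : ∀ M : B, IsIso (γ.app M) → IsZero M) (X : DerivedCategory B)
    (h : IsZero ((RG γ).obj X)) : IsZero X := by
  have h1 : IsZero (DerivedCategory.Q.obj ((coconeF γ).obj (DerivedCategory.Q.objPreimage X))) :=
    h.of_iso (((derFIso (coconeF γ) (quasiIso_coconeF γ)).symm.app _) ≪≫
      (RG γ).mapIso (DerivedCategory.Q.objObjPreimageIso X))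
  rw [isZero_Q_iff] at h1
  exact ((isZero_Q_iff _).2 (exact_of_cocone hg _ h1)).of_iso
    (DerivedCategory.Q.objObjPreimageIso X).symm

lemma conservative_RG (hg : ∀ M : B, IsIso (γ.app M) → IsZero M)
    (hc : ∀ (M : A) (N : B) (f : F₀.obj M ⟶ N),
    adj₁.homEquiv M N (φ.app M ≫ f) = adj₀.homEquiv M N f ≫ γ.app N)
    {X Y : DerivedCategory B} (f : X ⟶ Y) (hf : IsIso ((RG γ).map f)) : IsIso f := by
  let _ := (dAdj φ γ adj₁ adj₀ hc).rightAdjointCommShift ℤ
  have h1 := (dAdj φ γ adj₁ adj₀ hc).commShift_of_leftAdjoint ℤ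
  have h2 : (RG γ).IsTriangulated := (dAdj φ γ adj₁ adj₀ hc).isTriangulated_rightAdjoint
  obtain ⟨Z, g, h, hT⟩ := distinguished_cocone_triangle f
  have h3 := (RG γ).map_distinguished _ hT
  have h4 : IsZero ((RG γ).obj Z) := Triangle.isZero₃_of_isIso₁ _ h3 hf
  exact (Triangle.isZero₃_iff_isIso₁ _ hT).1 (isZero_of_RG hg Z h4)

lemma isIso_counit (h : ExSeq φ γ adj₁ adj₀) (hg : ∀ M : B, IsIso (γ.app M) → IsZero M)
    (X : DerivedCategory B) : IsIso ((dAdj φ γ adj₁ adj₀ hc).counit.app X) := by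
  apply conservative_RG hg hc
  have h1 := isIso_unit hc h ((RG γ).obj X)
  have h2 := (dAdj φ γ adj₁ adj₀ hc).right_triangle_components X
  exact IsIso.of_isIso_fac_left h2

lemma isEquivalence_LF (h : ExSeq φ γ adj₁ adj₀) (hg : ∀ M : B, IsIso (γ.app M) → IsZero M)
    (hc : ∀ (M : A) (N : B) (f : F₀.obj M ⟶ N),
    adj₁.homEquiv M N (φ.app M ≫ f) = adj₀.homEquiv M N f ≫ γ.app N) :
    (LF φ).IsEquivalence := by
  have h1 := isIso_unit hc h
  have h2 := isIso_counit hc h hg
  exact (dAdj φ γ adj₁ adj₀ hc).toEquivalence.isEquivalence_functor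

section Bounded

variable (φ γ)

lemma strictlyGE_coneF (K : CochainComplex A ℤ) (a : ℤ) [K.IsStrictlyGE a] :
    CochainComplex.IsStrictlyGE ((coneF φ).obj K) (a - 1) := by
  rw [CochainComplex.isStrictlyGE_iff]
  intro i hi
  exact (mappingCone.isZero_X_iff (nat φ K) i).2
    ⟨F₁.map_isZero (K.isZero_of_isStrictlyGE a (i + 1) (by lia)),
      F₀.map_isZero (K.isZero_of_isStrictlyGE a i (by lia))⟩

lemma strictlyLE_coneF (K : CochainComplex A ℤ) (b : ℤ) [K.IsStrictlyLE b] :
    CochainComplex.IsStrictlyLE ((coneF φ).obj K) b := by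
  rw [CochainComplex.isStrictlyLE_iff]
  intro i hi
  exact (mappingCone.isZero_X_iff (nat φ K) i).2
    ⟨F₁.map_isZero (K.isZero_of_isStrictlyLE b (i + 1) (by lia)),
      F₀.map_isZero (K.isZero_of_isStrictlyLE b i (by lia))⟩

open Pool.Agent.UBlocks

lemma LF_bounded {X : DerivedCategory A} (h : DerivedCategory.TStructure.t.bounded X) :
    DerivedCategory.TStructure.t.bounded ((LF φ).obj X) := by
  obtain ⟨K, a, b, h1, h2, ⟨e⟩⟩ := exists_of_bounded h
  have h3 := strictlyGE_coneF φ K a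
  have h4 := strictlyLE_coneF φ K b
  exact bounded_of_iso ((LF φ).mapIso e ≪≫ (derFIso (coneF φ) (quasiIso_coneF φ)).app K) (a - 1) b

lemma RG_bounded {X : DerivedCategory B} (h : DerivedCategory.TStructure.t.bounded X) :
    DerivedCategory.TStructure.t.bounded ((RG γ).obj X) := by
  obtain ⟨K, a, b, h1, h2, ⟨e⟩⟩ := exists_of_bounded h
  have h3 := strictlyGE_coneF γ K a
  have h4 := strictlyLE_coneF γ K b
  have h5 : CochainComplex.IsStrictlyGE ((coconeF γ).obj K) a :=
    CochainComplex.isStrictlyGE_shift _ (a - 1) (-1) a (by lia)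
  have h6 : CochainComplex.IsStrictlyLE ((coconeF γ).obj K) (b + 1) :=
    CochainComplex.isStrictlyLE_shift _ b (-1) (b + 1) (by lia)
  exact bounded_of_iso ((RG γ).mapIso e ≪≫ (derFIso (coconeF γ) (quasiIso_coconeF γ)).app K) a
    (b + 1)

/-- the functor between the bounded derived categories -/
noncomputable abbrev LB : DerivedCategory.Bounded A ⥤ DerivedCategory.Bounded B :=
  (DerivedCategory.TStructure.t.bounded).lift
    (DerivedCategory.Bounded.ι ⋙ LF φ) fun X => LF_bounded φ X.property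

theorem LB_isTriangulated : (LB φ).IsTriangulated := inferInstance

variable {φ γ}

theorem LB_isEquivalence (h : ExSeq φ γ adj₁ adj₀) (hg : ∀ M : B, IsIso (γ.app M) → IsZero M)
    (hc : ∀ (M : A) (N : B) (f : F₀.obj M ⟶ N),
    adj₁.homEquiv M N (φ.app M ≫ f) = adj₀.homEquiv M N f ≫ γ.app N) :
    (LB φ).IsEquivalence := by
  have h0 := isEquivalence_LF h hg hc
  have h1 := isIso_counit hc h hg
  have h2 : (LB φ).EssSurj := by
    constructor
    intro Y
    refine ⟨⟨(RG γ).obj Y.obj, RG_bounded γ Y.property⟩, ⟨?_⟩⟩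
    exact ObjectProperty.isoMk _ (asIso ((dAdj φ γ adj₁ adj₀ hc).counit.app Y.obj))
  have h3 : (LB φ).Full := inferInstance
  have h4 : (LB φ).Faithful := inferInstance
  exact { }

end Bounded

end DBr
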