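import Pool.Agent.DBr.Pre
import Pool.Agent.DBr.Equiv

/-! Two-term tilting complexes of bimodules give equivalences of bounded derived categories. -/

open CategoryTheory Limits

set_option linter.unusedSectionVars false

namespace DBr

variable {C A X₁ X₀ : Type} [Ring C] [Ring A] [AddCommGroup X₁] [Module C X₁] [Module Aᵐᵒᵖ X₁]
  [SMulCommClass C Aᵐᵒᵖ X₁] [AddCommGroup X₀] [Module C X₀] [Module Aᵐᵒᵖ X₀]
  [SMulCommClass C Aᵐᵒᵖ X₀] (d : X₁ →ₗ[C] X₀)
  (hd : ∀ (a : A) x, d (MulOpposite.op a • x) = MulOpposite.op a • d x)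

section

variable {X : Type} [AddCommGroup X] [Module C X] [Module Aᵐᵒᵖ X] [SMulCommClass C Aᵐᵒᵖ X]
  (D : DBasis A X)

include D in
lemma finite_dual : Module.Finite A (Dl C A X) := by
  classical
  refine ⟨⟨Finset.univ.image fun j => Dl.mk (C := C) (D.ξ j), ?_⟩⟩
  rw [eq_top_iff]
  rintro ξ -
  rw [← D.dual ξ]
  refine Submodule.sum_mem _ fun j _ => Submodule.smul_mem _ _ (Submodule.subset_span ?_)
  simp

include D in
lemma projective_dual : Module.Projective A (Dl C A X) := by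
  let i : Dl C A X →ₗ[A] (D.ι → A) :=
    { toFun := fun ξ j => ξ (D.x j)
      map_add' := fun ξ η => rfl
      map_smul' := fun a ξ => rfl }
  let s : (D.ι → A) →ₗ[A] Dl C A X :=
    { toFun := fun c => ∑ j, c j • Dl.mk (C := C) (D.ξ j)
      map_add' := fun c c' => by
        rw [← Finset.sum_add_distrib]
        exact Finset.sum_congr rfl fun j _ => add_smul _ _ _
      map_smul' := fun a c => by
        rw [RingHom.id_apply, Finset.smul_sum]
        exact Finset.sum_congr rfl fun j _ => mul_smul _ _ _ }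
  exact Module.Projective.of_split i s (LinearMap.ext fun ξ => D.dual ξ)

end

/-- The map from a free module given by a function. -/
noncomputable def frM {T : Type} {M : ModuleCat.{0} A} (f : T → M) : Fr A T ⟶ M :=
  ModuleCat.ofHom (Finsupp.linearCombination A f)

lemma frM_ext {T : Type} {M : ModuleCat.{0} A} {f g : Fr A T ⟶ M}
    (h : ∀ t : T, f.hom (Finsupp.single t 1) = g.hom (Finsupp.single t 1)) : f = g := by
  refine ModuleCat.hom_ext (Finsupp.lhom_ext' fun t => LinearMap.ext_ring (h t))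

lemma frM_single {T : Type} {M : ModuleCat.{0} A} (f : T → M) (t : T) :
    (frM f).hom (Finsupp.single t 1) = f t := by
  change Finsupp.linearCombination A f (Finsupp.single t 1) = f t
  simp

instance (N : ModuleCat.{0} A) : Epi (frN N) :=
  (ModuleCat.epi_iff_surjective _).2 (frN_surjective N)

lemma frN_single (N : ModuleCat.{0} A) (n : N) : (frN N).hom (Finsupp.single n 1) = n := by
  change Finsupp.linearCombination A id (Finsupp.single n 1) = n
  simp

lemma frN_comp {N M : ModuleCat.{0} A} (g : N ⟶ M) : frN N ≫ g = frM (fun n => g.hom n) := by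
  refine frM_ext fun t => ?_
  rw [ModuleCat.hom_comp, LinearMap.comp_apply, frN_single, frM_single]

lemma frM_comp {T : Type} {N M : ModuleCat.{0} A} (f : T → N) (g : N ⟶ M) :
    frM f ≫ g = frM (fun t => g.hom (f t)) := by
  refine frM_ext fun t => ?_
  rw [ModuleCat.hom_comp, LinearMap.comp_apply, frM_single, frM_single]

lemma frM_add {T : Type} {M : ModuleCat.{0} A} (f g : T → M) :
    frM f + frM g = frM (fun t => f t + g t) := by
  refine frM_ext fun t => ?_
  rw [ModuleCat.hom_add, LinearMap.add_apply, frM_single, frM_single, frM_single]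

section

variable (D₁ : DBasis A X₁) (D₀ : DBasis A X₀)

lemma exSeq (h : ∀ N, SEx (alph d hd) (bet d hd) N) :
    ExSeq (phi d hd) (gam d hd) (thAdj C D₁) (thAdj C D₀) where
  inj N T w n h1 h2 := by
    rw [un, unit_eq] at h1 h2
    have h3 : ∀ t : T, ((w.hom t, n.hom t) :
        (prodF (tF C A X₁ ⋙ hF C A X₀) (𝟭 (ModuleCat.{0} A))).obj N) = 0 := by
      intro t
      apply (h N).inj
      exact Prod.ext (congrArg (fun f => (ModuleCat.Hom.hom f) t) h1)
        (congrArg (fun f => (ModuleCat.Hom.hom f) t) h2)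
    constructor
    · exact ModuleCat.hom_ext (LinearMap.ext fun t => (Prod.ext_iff.1 (h3 t)).1)
    · exact ModuleCat.hom_ext (LinearMap.ext fun t => (Prod.ext_iff.1 (h3 t)).2)
  mid N T b c h1 := by
    have h2 : ∀ t : T, ∃ x, ((alph d hd).app N).hom x = (b.hom t, c.hom t) := by
      intro t
      apply (h N).mid
      have h3 := congrArg (fun f => (ModuleCat.Hom.hom f) t) h1
      exact (sub_eq_add_neg _ _).symm.trans (sub_eq_zero.2 h3)
    have h4 : ∃ (x₁ : T → (hF C A X₀).obj ((tF C A X₁).obj N)) (x₂ : T → N),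
        (∀ t, b.hom t = ((hF C A X₀).map ((phi d hd).app N)).hom (x₁ t) +
          (un (thAdj C D₀) N).hom (x₂ t)) ∧
        (∀ t, c.hom t = ((gam d hd).app ((tF C A X₁).obj N)).hom (x₁ t) +
          (un (thAdj C D₁) N).hom (x₂ t)) := by
      choose x hx using h2
      rw [un, unit_eq, un, unit_eq]
      exact ⟨fun t => (x t).1, fun t => (x t).2, fun t => (Prod.ext_iff.1 (hx t)).1.symm,
        fun t => (Prod.ext_iff.1 (hx t)).2.symm⟩
    obtain ⟨x₁, x₂, h5, h6⟩ := h4
    refine ⟨Fr A T, frN T, inferInstance, frM x₁, frM x₂, ?_, ?_⟩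
    · rw [frN_comp, frM_comp, frM_comp, frM_add, funext h5]
    · rw [frN_comp, frM_comp, frM_comp, frM_add, funext h6]
  sur N T e := by
    have h2 : ∀ t : T, ∃ x, ((bet d hd).app N).hom x = e.hom t := fun t => (h N).sur _
    have h4 : ∃ (x₁ : T → (hF C A X₀).obj ((tF C A X₀).obj N))
        (x₂ : T → (hF C A X₁).obj ((tF C A X₁).obj N)),
        (∀ t, e.hom t = ((gam d hd).app ((tF C A X₀).obj N)).hom (x₁ t) +
          ((hF C A X₁).map ((phi d hd).app N)).hom (x₂ t)) := by
      choose x hx using h2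
      refine ⟨fun t => (x t).1, fun t => -(x t).2, fun t => ?_⟩
      rw [map_neg]
      exact (hx t).symm
    obtain ⟨x₁, x₂, h5⟩ := h4
    refine ⟨Fr A T, frN T, inferInstance, frM x₁, frM x₂, ?_⟩
    rw [frN_comp, frM_comp, frM_comp, frM_add, funext h5]

end

open Pool.Agent.UBlocks

/-- A two-term complex `d : X₁ → X₀` of bimodules (`C` from the left, `A` from the right), finitely
generated and projective on both sides, with endomorphism ring `A` and no self-extensions, such
that no nonzero `C`-module is orthogonal to it, gives an equivalence of the bounded derived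
categories of `A` and `C`. -/
theorem main {C A : Type} [Ring C] [Ring A] {X₁ X₀ : Type} [AddCommGroup X₁] [Module C X₁]
    [Module Aᵐᵒᵖ X₁] [SMulCommClass C Aᵐᵒᵖ X₁] [AddCommGroup X₀] [Module C X₀] [Module Aᵐᵒᵖ X₀]
    [SMulCommClass C Aᵐᵒᵖ X₀] (lf₁ : Module.Finite C X₁) (lp₁ : Module.Projective C X₁)
    (lf₀ : Module.Finite C X₀) (lp₀ : Module.Projective C X₀) (rf₁ : Module.Finite Aᵐᵒᵖ X₁)
    (rp₁ : Module.Projective Aᵐᵒᵖ X₁) (rf₀ : Module.Finite Aᵐᵒᵖ X₀)
    (rp₀ : Module.Projective Aᵐᵒᵖ X₀) (d : X₁ →ₗ[C] X₀)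
    (hd : ∀ (a : A) (x : X₁), d (MulOpposite.op a • x) = MulOpposite.op a • d x)
    (sur : ∀ f : X₁ →ₗ[C] X₀, ∃ (α : X₁ →ₗ[C] X₁) (β : X₀ →ₗ[C] X₀), f = d ∘ₗ α + β ∘ₗ d)
    (inj : ∀ u : X₀ →ₗ[C] X₁, u ∘ₗ d = 0 → d ∘ₗ u = 0 → u = 0)
    (mid : ∀ (α : X₁ →ₗ[C] X₁) (β : X₀ →ₗ[C] X₀), d ∘ₗ α = β ∘ₗ d → ∃! a : A, ∃ u : X₀ →ₗ[C] X₁,
      (∀ x, α x = MulOpposite.op a • x + u (d x)) ∧ ∀ x, β x = MulOpposite.op a • x + d (u x))
    (gen : ∀ (M : Type) [AddCommGroup M] [Module C M],
      Function.Bijective (fun f : X₀ →ₗ[C] M => f ∘ₗ d) → Subsingleton M) : DbEquiv A C := by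
  obtain ⟨D₁⟩ := exists_dBasis A X₁
  obtain ⟨D₀⟩ := exists_dBasis A X₀
  have _ := finite_dual (C := C) D₁
  have _ := finite_dual (C := C) D₀
  have _ := projective_dual (C := C) D₁
  have _ := projective_dual (C := C) D₀
  have eT₁ : ExF (tF C A X₁) := homF_exF _ _ _
  have eT₀ : ExF (tF C A X₀) := homF_exF _ _ _
  have eH₁ : ExF (hF C A X₁) := homF_exF _ _ _
  have eH₀ : ExF (hF C A X₀) := homF_exF _ _ _
  have _ := eT₁.preservesHomology
  have _ := eT₀.preservesHomology
  have _ := eH₁.preservesHomology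
  have _ := eH₀.preservesHomology
  have fT₁ : DBr.Fin C (tF C A X₁) := fin_comp A C (Dl C A X₁) (𝟭 _) fin_id
  have fT₀ : DBr.Fin C (tF C A X₀) := fin_comp A C (Dl C A X₀) (𝟭 _) fin_id
  have hS : ∀ N, SEx (alph d hd) (bet d hd) N :=
    sex_all ((eT₁.comp eH₀).prod ExF.id) ((eT₀.comp eH₀).prod (eT₁.comp eH₁)) (eT₀.comp eH₁)
      (alph_bet d hd)
      (fin_prod (fin_comp C A X₀ _ fT₁) fin_id)
      (fin_prod (fin_comp C A X₀ _ fT₀) (fin_comp C A X₁ _ fT₁)) (fin_comp C A X₁ _ fT₀)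
      (sex_A d hd sur inj mid D₁ D₀)
  have hE := exSeq d hd D₁ D₀ hS
  have hg : ∀ M : ModuleCat.{0} C, IsIso ((gam d hd).app M) → IsZero M := by
    intro M hM
    have h1 : Function.Bijective (fun f : X₀ →ₗ[C] M => f ∘ₗ d) :=
      ConcreteCategory.bijective_of_isIso ((gam d hd).app M)
    have h2 := gen M h1
    exact ModuleCat.isZero_of_subsingleton M
  let _ := HasDerivedCategory.standard (ModuleCat.{0} A)
  let _ := HasDerivedCategory.standard (ModuleCat.{0} C)
  exact ⟨LB (phi d hd), inferInstance, inferInstance,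
    LB_isEquivalence hE hg (conj_phi_gam d hd D₁ D₀)⟩

end DBr
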