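import Pool.Agent.DBr.ModFun

/-! The adjunction `Hom_A(Hom_{Aᵒᵖ}(X, A), -) ⊣ Hom_C(X, -)`. -/

open CategoryTheory Limits

set_option linter.unusedSectionVars false

namespace DBr

section Dual

/-- The dual of a right `A`-module. -/
def Dl (_C A X : Type) [Ring A] [AddCommGroup X] [Module Aᵐᵒᵖ X] : Type := X →ₗ[Aᵐᵒᵖ] A

variable {C A X : Type} [Ring C] [Ring A] [AddCommGroup X] [Module C X] [Module Aᵐᵒᵖ X]
  [SMulCommClass C Aᵐᵒᵖ X]

instance : AddCommGroup (Dl C A X) := inferInstanceAs (AddCommGroup (X →ₗ[Aᵐᵒᵖ] A))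

/-- The underlying linear map. -/
def Dl.toLin (f : Dl C A X) : X →ₗ[Aᵐᵒᵖ] A := f

/-- The element with the given underlying linear map. -/
def Dl.mk (f : X →ₗ[Aᵐᵒᵖ] A) : Dl C A X := f

instance : CoeFun (Dl C A X) (fun _ => X → A) := ⟨fun f => f.toLin⟩

@[simp] lemma Dl.mk_apply (f : X →ₗ[Aᵐᵒᵖ] A) (y : X) : (Dl.mk (C := C) f) y = f y := rfl

@[ext] lemma Dl.ext {f g : Dl C A X} (h : ∀ y, f y = g y) : f = g :=
  LinearMap.ext (f := f.toLin) (g := g.toLin) h

@[simp] lemma Dl.add_apply (f g : Dl C A X) (y : X) : (f + g) y = f y + g y := rfl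
@[simp] lemma Dl.zero_apply (y : X) : (0 : Dl C A X) y = 0 := rfl

@[simp] lemma Dl.map_add (f : Dl C A X) (x y : X) : f (x + y) = f x + f y :=
  LinearMap.map_add f.toLin x y
@[simp] lemma Dl.map_smul (f : Dl C A X) (a : A) (y : X) :
    f (MulOpposite.op a • y) = f y * a :=
  LinearMap.map_smul f.toLin (MulOpposite.op a) y

lemma Dl.map_sum {ι : Type} (s : Finset ι) (f : Dl C A X) (y : ι → X) :
    f (∑ i ∈ s, y i) = ∑ i ∈ s, f (y i) := _root_.map_sum f.toLin y s

lemma Dl.sum_apply {ι : Type} (s : Finset ι) (f : ι → Dl C A X) (y : X) :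
    (∑ i ∈ s, f i) y = ∑ i ∈ s, f i y := by
  classical
  induction s using Finset.induction_on with
  | empty => simp
  | insert a s ha ih => rw [Finset.sum_insert ha, Finset.sum_insert ha, Dl.add_apply, ih]

instance : Module A (Dl C A X) where
  smul a f := Dl.mk
    { toFun := fun y => a * f y
      map_add' := fun x y => by rw [Dl.map_add, mul_add]
      map_smul' := fun r y => by
        obtain ⟨b, rfl⟩ := MulOpposite.op_surjective r
        rw [Dl.map_smul, ← mul_assoc]
        rfl }
  one_smul f := by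
    ext y
    exact one_mul _
  mul_smul a b f := by
    ext y
    exact mul_assoc _ _ _
  smul_zero a := by
    ext y
    exact mul_zero _
  smul_add a f g := by
    ext y
    exact mul_add _ _ _
  add_smul a b f := by
    ext y
    exact add_mul _ _ _
  zero_smul f := by
    ext y
    exact zero_mul _

@[simp] lemma Dl.smul_apply (a : A) (f : Dl C A X) (y : X) : (a • f) y = a * f y := rfl

instance : Module Cᵐᵒᵖ (Dl C A X) where
  smul c f := Dl.mk
    { toFun := fun y => f (c.unop • y)
      map_add' := fun x y => by rw [smul_add, Dl.map_add]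
      map_smul' := fun r y => by
        obtain ⟨b, rfl⟩ := MulOpposite.op_surjective r
        rw [smul_comm, Dl.map_smul]
        rfl }
  one_smul f := by
    ext y
    change f ((1 : C) • y) = f y
    rw [one_smul]
  mul_smul a b f := by
    ext y
    change f ((b.unop * a.unop) • y) = f (b.unop • a.unop • y)
    rw [mul_smul]
  smul_zero a := by
    ext y
    rfl
  smul_add a f g := by
    ext y
    rfl
  add_smul a b f := by
    ext y
    change f ((a.unop + b.unop) • y) = f (a.unop • y) + f (b.unop • y)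
    rw [add_smul, Dl.map_add]
  zero_smul f := by
    ext y
    change f ((0 : C) • y) = 0
    rw [zero_smul]
    exact LinearMap.map_zero f.toLin

@[simp] lemma Dl.op_smul_apply (c : C) (f : Dl C A X) (y : X) :
    (MulOpposite.op c • f) y = f (c • y) := rfl

instance : SMulCommClass A Cᵐᵒᵖ (Dl C A X) where
  smul_comm a c f := by
    ext y
    rfl

end Dual

/-- A finite dual basis of a right module. -/
structure DBasis (A X : Type) [Ring A] [AddCommGroup X] [Module Aᵐᵒᵖ X] where
  /-- the index set -/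
  ι : Type
  [fin : Fintype ι]
  /-- the elements -/
  x : ι → X
  /-- the forms -/
  ξ : ι → (X →ₗ[Aᵐᵒᵖ] A)
  sum : ∀ y, ∑ j, MulOpposite.op (ξ j y) • x j = y

attribute [instance] DBasis.fin

theorem exists_dBasis (A X : Type) [Ring A] [AddCommGroup X] [Module Aᵐᵒᵖ X]
    [Module.Finite Aᵐᵒᵖ X] [Module.Projective Aᵐᵒᵖ X] : Nonempty (DBasis A X) := by
  obtain ⟨n, f, hf⟩ := Module.Finite.exists_fin' Aᵐᵒᵖ X
  obtain ⟨g, hg⟩ := Module.projective_lifting_property f LinearMap.id hf
  refine ⟨⟨Fin n, fun j => f (Pi.single j 1), fun j =>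
    { toFun := fun y => (g y j).unop
      map_add' := fun x y => by simp
      map_smul' := fun r y => by
        obtain ⟨b, rfl⟩ := MulOpposite.op_surjective r
        simp }, fun y => ?_⟩⟩
  have h1 : f (g y) = y := congrArg (fun t => t y) hg
  conv_rhs => rw [← h1]
  conv_rhs => rw [← Finset.univ_sum_single (g y)]
  rw [map_sum]
  refine Finset.sum_congr rfl fun j _ => ?_
  rw [← LinearMap.map_smul]
  congr 1
  ext i
  by_cases h : i = j
  · subst h
    simp
  · simp [h]

section

variable (C A X : Type) [Ring C] [Ring A] [AddCommGroup X] [Module C X] [Module Aᵐᵒᵖ X]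
  [SMulCommClass C Aᵐᵒᵖ X]

/-- The left adjoint (the tensor product with `X`). -/
abbrev tF : ModuleCat.{0} A ⥤ ModuleCat.{0} C := homF A C (Dl C A X)

/-- The right adjoint `Hom_C(X, -)`. -/
abbrev hF : ModuleCat.{0} C ⥤ ModuleCat.{0} A := homF C A X

variable {C A X} {N : Type} [AddCommGroup N] [Module A N] {M : Type} [AddCommGroup M] [Module C M]

/-- The element `x ⊗ n`. -/
def ev (x : X) (n : N) : HB A C (Dl C A X) N := HB.mk
  { toFun := fun ξ => ξ x • n
    map_add' := fun ξ η => by rw [Dl.add_apply, add_smul]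
    map_smul' := fun a ξ => by rw [Dl.smul_apply, mul_smul]; rfl }

@[simp] lemma ev_apply (x : X) (n : N) (ξ : Dl C A X) : ev x n ξ = ξ x • n := rfl

lemma ev_add_left (x y : X) (n : N) :
    (ev (x + y) n : HB A C (Dl C A X) N) = ev x n + ev y n := by
  ext ξ
  simp [add_smul]

lemma ev_add_right (x : X) (n m : N) :
    (ev x (n + m) : HB A C (Dl C A X) N) = ev x n + ev x m := by
  ext ξ
  simp [smul_add]

lemma ev_smul_left (c : C) (x : X) (n : N) :
    (ev (c • x) n : HB A C (Dl C A X) N) = c • (ev x n : HB A C (Dl C A X) N) := by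
  ext ξ
  simp

lemma ev_bal (a : A) (x : X) (n : N) :
    (ev (MulOpposite.op a • x) n : HB A C (Dl C A X) N) = ev x (a • n) := by
  ext ξ
  simp [mul_smul]

variable (D : DBasis A X)

lemma DBasis.dual (ξ : Dl C A X) : ∑ j, ξ (D.x j) • (Dl.mk (C := C) (D.ξ j)) = ξ := by
  ext y
  rw [Dl.sum_apply]
  conv_rhs => rw [← D.sum y, Dl.map_sum]
  refine Finset.sum_congr rfl fun j _ => ?_
  simp

lemma DBasis.sum_ev (f : HB A C (Dl C A X) N) :
    ∑ j, ev (D.x j) (f (Dl.mk (D.ξ j))) = f := by
  ext ξ
  rw [HB.sum_apply]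
  conv_rhs => rw [← D.dual ξ]
  rw [show f (∑ j, ξ (D.x j) • (Dl.mk (C := C) (D.ξ j))) =
    ∑ j, f (ξ (D.x j) • (Dl.mk (C := C) (D.ξ j))) from map_sum f.toLin _ _]
  refine Finset.sum_congr rfl fun j _ => ?_
  simp

/-- From maps on the tensor product to maps to the module of homomorphisms. -/
def toG (h : HB A C (Dl C A X) N →ₗ[C] M) : N →ₗ[A] HB C A X M where
  toFun n := HB.mk
    { toFun := fun x => h (ev x n)
      map_add' := fun x y => by rw [ev_add_left, map_add]
      map_smul' := fun c x => by rw [ev_smul_left, map_smul]; rfl }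
  map_add' n m := by
    ext x
    simp [ev_add_right]
  map_smul' a n := by
    ext x
    simp [ev_bal]

@[simp] lemma toG_apply (h : HB A C (Dl C A X) N →ₗ[C] M) (n : N) (x : X) :
    (toG h n) x = h (ev x n) := rfl

/-- From maps to the module of homomorphisms to maps on the tensor product. -/
def toT (g : N →ₗ[A] HB C A X M) : HB A C (Dl C A X) N →ₗ[C] M where
  toFun f := ∑ j, (g (f (Dl.mk (D.ξ j)))) (D.x j)
  map_add' f f' := by
    rw [← Finset.sum_add_distrib]
    refine Finset.sum_congr rfl fun j _ => ?_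
    simp
  map_smul' c f := by
    rw [RingHom.id_apply, Finset.smul_sum]
    have h2 : ∀ k, ∑ j, D.ξ k (c • D.x j) • (Dl.mk (C := C) (D.ξ j)) =
        MulOpposite.op c • (Dl.mk (C := C) (D.ξ k)) := by
      intro k
      rw [← D.dual (MulOpposite.op c • (Dl.mk (C := C) (D.ξ k)))]
      rfl
    have h3 : ∀ j, c • (g (f (Dl.mk (D.ξ j)))) (D.x j) =
        ∑ k, (g (D.ξ k (c • D.x j) • f (Dl.mk (D.ξ j)))) (D.x k) := by
      intro j
      rw [← HB.map_smul]
      conv_lhs => rw [← D.sum (c • D.x j)]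
      rw [show (g (f (Dl.mk (D.ξ j)))) (∑ k, MulOpposite.op (D.ξ k (c • D.x j)) • D.x k) =
        ∑ k, (g (f (Dl.mk (D.ξ j)))) (MulOpposite.op (D.ξ k (c • D.x j)) • D.x k) from
          map_sum (HB.toLin (g (f (Dl.mk (D.ξ j))))) _ _]
      refine Finset.sum_congr rfl fun k _ => ?_
      rw [LinearMap.map_smul g, HB.smul_apply]
    rw [Finset.sum_congr rfl fun j _ => h3 j, Finset.sum_comm]
    refine Finset.sum_congr rfl fun k _ => ?_
    rw [HB.smul_apply, ← h2 k]
    rw [show f (∑ j, D.ξ k (c • D.x j) • (Dl.mk (C := C) (D.ξ j))) =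
      ∑ j, f (D.ξ k (c • D.x j) • (Dl.mk (C := C) (D.ξ j))) from map_sum f.toLin _ _]
    rw [map_sum, HB.sum_apply]
    refine Finset.sum_congr rfl fun j _ => ?_
    rw [HB.map_smul]

lemma toT_apply (g : N →ₗ[A] HB C A X M) (f : HB A C (Dl C A X) N) :
    toT D g f = ∑ j, (g (f (Dl.mk (D.ξ j)))) (D.x j) := rfl

lemma toT_toG (h : HB A C (Dl C A X) N →ₗ[C] M) : toT D (toG h) = h := by
  ext f
  rw [toT_apply]
  conv_rhs => rw [← D.sum_ev f, map_sum]
  rfl

lemma toG_toT (g : N →ₗ[A] HB C A X M) : toG (toT D g) = g := by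
  ext n x
  rw [toG_apply, toT_apply]
  conv_rhs => rw [← D.sum x]
  rw [show (g n) (∑ j, MulOpposite.op (D.ξ j x) • D.x j) =
    ∑ j, (g n) (MulOpposite.op (D.ξ j x) • D.x j) from map_sum (HB.toLin (g n)) _ _]
  refine Finset.sum_congr rfl fun j _ => ?_
  rw [ev_apply, map_smul, HB.smul_apply]
  rfl

variable (C)

/-- The adjunction. -/
def thAdj : tF C A X ⊣ hF C A X :=
  Adjunction.mkOfHomEquiv
    { homEquiv := fun N M =>
        { toFun := fun h => ModuleCat.ofHom (toG h.hom)
          invFun := fun g => ModuleCat.ofHom (toT D g.hom)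
          left_inv := fun h => by
            ext1
            exact toT_toG D h.hom
          right_inv := fun g => by
            ext1
            exact toG_toT D g.hom }
      homEquiv_naturality_left_symm := by
        intro N' N M f g
        ext1
        rfl
      homEquiv_naturality_right := by
        intro N M M' f g
        ext1
        rfl }

lemma thAdj_homEquiv_apply (N : ModuleCat.{0} A) (M : ModuleCat.{0} C)
    (h : (tF C A X).obj N ⟶ M) (n : N) (x : X) :
    (show HB C A X M from ((thAdj C D).homEquiv N M h).hom n) x = h.hom (ev x n) := by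
  rw [thAdj, Adjunction.mkOfHomEquiv_homEquiv]
  rfl

end

end DBr
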