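import Mathlib

/-! The functor `Hom_R(Y, -)` for a bimodule `Y` (`R` from the left, `S` from the right). -/

open CategoryTheory Limits

set_option linter.unusedSectionVars false

namespace DBr

section

/-- The group of the `R`-linear maps from `Y` to `N`, as an `S`-module. -/
@[nolint unusedArguments]
def HB (R _S Y N : Type) [Ring R] [AddCommGroup Y] [Module R Y] [AddCommGroup N] [Module R N] :
    Type := Y →ₗ[R] N

variable {R S Y : Type} [Ring R] [Ring S] [AddCommGroup Y] [Module R Y] [Module Sᵐᵒᵖ Y]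
  [SMulCommClass R Sᵐᵒᵖ Y] {N : Type} [AddCommGroup N] [Module R N]

instance : AddCommGroup (HB R S Y N) := inferInstanceAs (AddCommGroup (Y →ₗ[R] N))

/-- The underlying linear map. -/
def HB.toLin (f : HB R S Y N) : Y →ₗ[R] N := f

/-- The element with the given underlying linear map. -/
def HB.mk (f : Y →ₗ[R] N) : HB R S Y N := f

instance : CoeFun (HB R S Y N) (fun _ => Y → N) := ⟨fun f => f.toLin⟩

@[simp] lemma HB.mk_apply (f : Y →ₗ[R] N) (y : Y) : (HB.mk (S := S) f) y = f y := rfl

@[simp] lemma HB.toLin_mk (f : Y →ₗ[R] N) : (HB.mk (S := S) f).toLin = f := rfl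

@[simp] lemma HB.mk_toLin (f : HB R S Y N) : HB.mk f.toLin = f := rfl

@[ext] lemma HB.ext {f g : HB R S Y N} (h : ∀ y, f y = g y) : f = g :=
  LinearMap.ext (f := f.toLin) (g := g.toLin) h

@[simp] lemma HB.add_apply (f g : HB R S Y N) (y : Y) : (f + g) y = f y + g y := rfl
@[simp] lemma HB.zero_apply (y : Y) : (0 : HB R S Y N) y = 0 := rfl
@[simp] lemma HB.neg_apply (f : HB R S Y N) (y : Y) : (-f) y = -(f y) := rfl
@[simp] lemma HB.sub_apply (f g : HB R S Y N) (y : Y) : (f - g) y = f y - g y := rfl

@[simp] lemma HB.map_add (f : HB R S Y N) (x y : Y) : f (x + y) = f x + f y :=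
  LinearMap.map_add f.toLin x y
@[simp] lemma HB.map_smul (f : HB R S Y N) (r : R) (y : Y) : f (r • y) = r • f y :=
  LinearMap.map_smul f.toLin r y

lemma HB.sum_apply {ι : Type} (s : Finset ι) (f : ι → HB R S Y N) (y : Y) :
    (∑ i ∈ s, f i) y = ∑ i ∈ s, f i y := by
  classical
  induction s using Finset.induction_on with
  | empty => simp
  | insert a s ha ih => rw [Finset.sum_insert ha, Finset.sum_insert ha, HB.add_apply, ih]

instance : Module S (HB R S Y N) where
  smul s f := HB.mk
    { toFun := fun y => f (MulOpposite.op s • y)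
      map_add' := fun x y => by rw [smul_add, HB.map_add]
      map_smul' := fun r y => by
        rw [← smul_comm r, HB.map_smul]
        rfl }
  one_smul f := by
    ext y
    change f (MulOpposite.op 1 • y) = f y
    rw [MulOpposite.op_one, one_smul]
  mul_smul a b f := by
    ext y
    change f (MulOpposite.op (a * b) • y) = f (MulOpposite.op b • MulOpposite.op a • y)
    rw [MulOpposite.op_mul, mul_smul]
  smul_zero a := by
    ext y
    rfl
  smul_add a f g := by
    ext y
    rfl
  add_smul a b f := by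
    ext y
    change f (MulOpposite.op (a + b) • y) = f (MulOpposite.op a • y) + f (MulOpposite.op b • y)
    rw [MulOpposite.op_add, add_smul, HB.map_add]
  zero_smul f := by
    ext y
    change f (MulOpposite.op 0 • y) = 0
    rw [MulOpposite.op_zero, zero_smul]
    exact LinearMap.map_zero f.toLin

@[simp] lemma HB.smul_apply (s : S) (f : HB R S Y N) (y : Y) :
    (s • f) y = f (MulOpposite.op s • y) := rfl

/-- Composition with a linear map. -/
def HB.post {N N' : Type} [AddCommGroup N] [Module R N] [AddCommGroup N'] [Module R N']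
    (g : N →ₗ[R] N') : HB R S Y N →ₗ[S] HB R S Y N' where
  toFun f := HB.mk (g ∘ₗ f.toLin)
  map_add' f f' := by
    ext y
    exact g.map_add _ _
  map_smul' s f := by
    ext y
    rfl

@[simp] lemma HB.post_apply {N N' : Type} [AddCommGroup N] [Module R N] [AddCommGroup N']
    [Module R N'] (g : N →ₗ[R] N') (f : HB R S Y N) (y : Y) : (HB.post g f) y = g (f y) := rfl

end

section

variable (R S Y : Type) [Ring R] [Ring S] [AddCommGroup Y] [Module R Y] [Module Sᵐᵒᵖ Y]
  [SMulCommClass R Sᵐᵒᵖ Y]

/-- The functor `Hom_R(Y, -)` with values in the `S`-modules. -/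
def homF : ModuleCat.{0} R ⥤ ModuleCat.{0} S where
  obj N := ModuleCat.of S (HB R S Y N)
  map g := ModuleCat.ofHom (HB.post g.hom)
  map_id N := by
    ext f
    rfl
  map_comp f g := by
    ext f
    rfl

instance : (homF R S Y).Additive where
  map_add {M N f g} := by
    ext x
    rfl

lemma homF_map_apply {M N : ModuleCat.{0} R} (g : M ⟶ N) (f : HB R S Y M) (y : Y) :
    (show HB R S Y N from ((homF R S Y).map g).hom f) y = g.hom (f y) := rfl

end

/-- Exact functors, in terms of elements. -/
structure ExF {A R : Type} [Ring A] [Ring R] (W : ModuleCat.{0} A ⥤ ModuleCat.{0} R) : Prop where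
  inj : ∀ {M N : ModuleCat.{0} A} (f : M ⟶ N), Function.Injective f.hom →
    Function.Injective (W.map f).hom
  sur : ∀ {M N : ModuleCat.{0} A} (f : M ⟶ N), Function.Surjective f.hom →
    Function.Surjective (W.map f).hom
  ex : ∀ {L M N : ModuleCat.{0} A} (f : L ⟶ M) (g : M ⟶ N), f ≫ g = 0 →
    (∀ y, g.hom y = 0 → ∃ x, f.hom x = y) → ∀ y, (W.map g).hom y = 0 → ∃ x, (W.map f).hom x = y

section

variable (R S Y : Type) [Ring R] [Ring S] [AddCommGroup Y] [Module R Y] [Module Sᵐᵒᵖ Y]
  [SMulCommClass R Sᵐᵒᵖ Y]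

lemma homF_exF [Module.Projective R Y] : ExF (homF R S Y) where
  inj {M N} f hf := by
    intro a b hab
    refine HB.ext (R := R) (S := S) (Y := Y) (N := M) fun y => hf ?_
    exact congrArg (fun (t : HB R S Y N) => t y) hab
  sur {M N} f hf := by
    intro b
    obtain ⟨a, ha⟩ := Module.projective_lifting_property f.hom (HB.toLin (S := S) b) hf
    exact ⟨HB.mk (S := S) a, ha⟩
  ex {L M N} f g h0 h y hy := by
    have h1 : ∀ t : Y, HB.toLin (S := S) y t ∈ LinearMap.range f.hom := by
      intro t
      obtain ⟨x, hx⟩ := h (HB.toLin (S := S) y t) (congrArg (fun (s : HB R S Y N) => s t) hy)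
      exact ⟨x, hx⟩
    obtain ⟨a, ha⟩ := Module.projective_lifting_property f.hom.rangeRestrict
      ((HB.toLin (S := S) y).codRestrict _ h1) f.hom.surjective_rangeRestrict
    refine ⟨HB.mk (S := S) a, ?_⟩
    have h2 := congrArg (fun t => (LinearMap.range f.hom).subtype ∘ₗ t) ha
    exact h2

end

section

variable {A R S : Type} [Ring A] [Ring R] [Ring S]

lemma ExF.comp {W : ModuleCat.{0} A ⥤ ModuleCat.{0} R} {V : ModuleCat.{0} R ⥤ ModuleCat.{0} S}
    [W.Additive] (hW : ExF W) (hV : ExF V) : ExF (W ⋙ V) where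
  inj f hf := hV.inj _ (hW.inj f hf)
  sur f hf := hV.sur _ (hW.sur f hf)
  ex f g h0 h := hV.ex _ _ (by rw [← W.map_comp, h0, W.map_zero]) (hW.ex f g h0 h)

lemma ExF.id : ExF (𝟭 (ModuleCat.{0} A)) where
  inj _ hf := hf
  sur _ hf := hf
  ex _ _ _ h := h

lemma ExF.preservesHomology {W : ModuleCat.{0} A ⥤ ModuleCat.{0} R} [W.Additive] (hW : ExF W) :
    W.PreservesHomology := by
  apply ((Functor.exact_tfae W).out 1 2).1
  intro T hT
  rw [ShortComplex.moduleCat_exact_iff] at hT ⊢
  exact hW.ex T.f T.g T.zero hT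

end

end DBr
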