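import Pool.Agent.DBr.ModFun

/-! A short exact sequence of exact functors which is exact at the free module of rank one and
is compatible with direct sums is exact at all modules. -/

open CategoryTheory Limits

set_option linter.unusedSectionVars false

namespace DBr

variable {A : Type} [Ring A]

/-- The free module. -/
noncomputable abbrev Fr (A : Type) [Ring A] (I : Type) : ModuleCat.{0} A := ModuleCat.of A (I →₀ A)

/-- The projection to a coordinate. -/
noncomputable def prI {I : Type} (i : I) : Fr A I ⟶ ModuleCat.of A A :=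
  ModuleCat.ofHom (Finsupp.lapply i)

/-- The inclusion of a coordinate. -/
noncomputable def inI {I : Type} (i : I) : ModuleCat.of A A ⟶ Fr A I :=
  ModuleCat.ofHom (Finsupp.lsingle i)

/-- The projection to a finite set of coordinates. -/
noncomputable def prS {I : Type} (s : Finset I) : Fr A I ⟶ Fr A I := ∑ i ∈ s, prI i ≫ inI i

lemma prS_apply {I : Type} (s : Finset I) (x : I →₀ A) (hx : x.support ⊆ s) :
    (prS (A := A) s).hom x = x := by
  classical
  have h1 : (prS (A := A) s).hom x = ∑ i ∈ s, Finsupp.single i (x i) := by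
    have h2 : ∀ (t : Finset I), (∑ i ∈ t, prI (A := A) i ≫ inI i : Fr A I ⟶ Fr A I).hom x =
        ∑ i ∈ t, Finsupp.single i (x i) := by
      intro t
      induction t using Finset.induction_on with
      | empty => simp
      | insert a t ha ih =>
        rw [Finset.sum_insert ha, Finset.sum_insert ha, ModuleCat.hom_add, LinearMap.add_apply, ih]
        rfl
    exact h2 s
  rw [h1]
  conv_rhs => rw [← Finsupp.sum_single x, Finsupp.sum]
  symm
  apply Finset.sum_subset hx
  intro i _ hi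
  rw [Finsupp.notMem_support_iff.1 hi, Finsupp.single_zero]

/-- Compatibility with direct sums. -/
def Fin (R : Type) [Ring R] (W : ModuleCat.{0} A ⥤ ModuleCat.{0} R) : Prop :=
  ∀ (I : Type) (t : W.obj (Fr A I)), ∃ s : Finset I, ∀ s', s ⊆ s' → (W.map (prS s')).hom t = t

lemma fin_id : DBr.Fin A (𝟭 (ModuleCat.{0} A)) := fun _ t =>
  ⟨Finsupp.support t, fun s' hs => prS_apply s' t hs⟩

lemma fin_comp (R S Y : Type) [Ring R] [Ring S] [AddCommGroup Y] [Module R Y] [Module Sᵐᵒᵖ Y]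
    [SMulCommClass R Sᵐᵒᵖ Y] [Module.Finite R Y] (W : ModuleCat.{0} A ⥤ ModuleCat.{0} R)
    (hW : DBr.Fin R W) : DBr.Fin S (W ⋙ homF R S Y) := by
  classical
  intro I t
  obtain ⟨T, hT⟩ := Module.Finite.fg_top (R := R) (M := Y)
  have h1 := fun y : Y => hW I (HB.toLin (S := S) (N := W.obj (Fr A I)) t y)
  choose s hs using h1
  refine ⟨T.biUnion s, fun s' hs' => ?_⟩
  have h2 : (W.map (prS s')).hom ∘ₗ (HB.toLin (S := S) (N := W.obj (Fr A I)) t) =
      HB.toLin (S := S) (N := W.obj (Fr A I)) t := by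
    apply LinearMap.ext_on hT
    intro y hy
    exact hs y s' ((Finset.subset_biUnion_of_mem s hy).trans hs')
  exact h2

/-- The product of two functors. -/
def prodF {R : Type} [Ring R] (V W : ModuleCat.{0} A ⥤ ModuleCat.{0} R) :
    ModuleCat.{0} A ⥤ ModuleCat.{0} R where
  obj N := ModuleCat.of R (V.obj N × W.obj N)
  map f := ModuleCat.ofHom (LinearMap.prodMap (V.map f).hom (W.map f).hom)
  map_id N := by
    refine ModuleCat.hom_ext (LinearMap.ext fun x => ?_)
    change ((V.map (𝟙 N)).hom x.1, (W.map (𝟙 N)).hom x.2) = x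
    rw [V.map_id, W.map_id]
    rfl
  map_comp f g := by
    refine ModuleCat.hom_ext (LinearMap.ext fun x => ?_)
    change ((V.map (f ≫ g)).hom x.1, (W.map (f ≫ g)).hom x.2) =
      ((V.map g).hom ((V.map f).hom x.1), (W.map g).hom ((W.map f).hom x.2))
    rw [V.map_comp, W.map_comp]
    rfl

section

variable {R : Type} [Ring R] {V W : ModuleCat.{0} A ⥤ ModuleCat.{0} R} [V.Additive] [W.Additive]

instance : (prodF V W).Additive where
  map_add {M N f g} := by
    refine ModuleCat.hom_ext (LinearMap.ext fun x => ?_)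
    change ((V.map (f + g)).hom x.1, (W.map (f + g)).hom x.2) =
      ((V.map f).hom x.1 + (V.map g).hom x.1, (W.map f).hom x.2 + (W.map g).hom x.2)
    rw [V.map_add, W.map_add]
    rfl

lemma ExF.prod (hV : ExF V) (hW : ExF W) : ExF (prodF V W) where
  inj f hf := by
    intro x y hxy
    have h1 : ((V.map f).hom x.1, (W.map f).hom x.2) = ((V.map f).hom y.1, (W.map f).hom y.2) := hxy
    exact Prod.ext (hV.inj f hf (Prod.ext_iff.1 h1).1) (hW.inj f hf (Prod.ext_iff.1 h1).2)
  sur f hf := by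
    rintro ⟨x, y⟩
    obtain ⟨a, ha⟩ := hV.sur f hf x
    obtain ⟨b, hb⟩ := hW.sur f hf y
    exact ⟨(a, b), Prod.ext ha hb⟩
  ex f g h0 h := by
    rintro ⟨x, y⟩ hxy
    obtain ⟨a, ha⟩ := hV.ex f g h0 h x (Prod.ext_iff.1 hxy).1
    obtain ⟨b, hb⟩ := hW.ex f g h0 h y (Prod.ext_iff.1 hxy).2
    exact ⟨(a, b), Prod.ext ha hb⟩

lemma fin_prod (hV : DBr.Fin R V) (hW : DBr.Fin R W) : DBr.Fin R (prodF V W) := by
  classical
  rintro I ⟨x, y⟩
  obtain ⟨s, hs⟩ := hV I x
  obtain ⟨s', hs'⟩ := hW I y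
  refine ⟨s ∪ s', fun t ht => ?_⟩
  exact Prod.ext (hs t (Finset.subset_union_left.trans ht))
    (hs' t (Finset.subset_union_right.trans ht))

end

section

variable {R : Type} [Ring R] {W₂ W₁ W₀ : ModuleCat.{0} A ⥤ ModuleCat.{0} R} [W₂.Additive]
  [W₁.Additive] [W₀.Additive] (α : W₂ ⟶ W₁) (β : W₁ ⟶ W₀)

/-- Exactness at a module. -/
structure SEx (N : ModuleCat.{0} A) : Prop where
  inj : ∀ w, (α.app N).hom w = 0 → w = 0
  mid : ∀ t, (β.app N).hom t = 0 → ∃ w, (α.app N).hom w = t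
  sur : ∀ e, ∃ t, (β.app N).hom t = e

variable {α β}

lemma nat_apply {V W : ModuleCat.{0} A ⥤ ModuleCat.{0} R} (α : V ⟶ W) {M N : ModuleCat.{0} A}
    (f : M ⟶ N) (x : V.obj M) : (α.app N).hom ((V.map f).hom x) = (W.map f).hom ((α.app M).hom x) :=
  congrArg (fun t => ModuleCat.Hom.hom t x) (α.naturality f)

lemma map_prS {W : ModuleCat.{0} A ⥤ ModuleCat.{0} R} [W.Additive] {I : Type} (s : Finset I)
    (t : W.obj (Fr A I)) : (W.map (prS s)).hom t =
      ∑ i ∈ s, (W.map (inI i)).hom ((W.map (prI i)).hom t) := by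
  classical
  rw [prS, W.map_sum]
  induction s using Finset.induction_on with
  | empty => simp
  | insert a s ha ih =>
    rw [Finset.sum_insert ha, Finset.sum_insert ha, ModuleCat.hom_add, LinearMap.add_apply, ih,
      W.map_comp]
    rfl

lemma sex_free (f2 : DBr.Fin R W₂) (f1 : DBr.Fin R W₁) (f0 : DBr.Fin R W₀)
    (h : SEx α β (ModuleCat.of A A)) (I : Type) : SEx α β (Fr A I) where
  inj w hw := by
    obtain ⟨s, hs⟩ := f2 I w
    rw [← hs s subset_rfl, map_prS]
    apply Finset.sum_eq_zero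
    intro i _
    rw [h.inj ((W₂.map (prI i)).hom w), map_zero]
    rw [nat_apply, hw, map_zero]
  mid t ht := by
    obtain ⟨s, hs⟩ := f1 I t
    have h1 : ∀ i, ∃ w, (α.app _).hom w = (W₁.map (prI i)).hom t := by
      intro i
      apply h.mid
      rw [nat_apply, ht, map_zero]
    choose w hw using h1
    refine ⟨∑ i ∈ s, (W₂.map (inI i)).hom (w i), ?_⟩
    rw [map_sum, ← hs s subset_rfl, map_prS]
    refine Finset.sum_congr rfl fun i _ => ?_
    rw [nat_apply, hw]
  sur t := by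
    obtain ⟨s, hs⟩ := f0 I t
    have h1 : ∀ i, ∃ w, (β.app _).hom w = (W₀.map (prI i)).hom t := fun i => h.sur _
    choose w hw using h1
    refine ⟨∑ i ∈ s, (W₁.map (inI i)).hom (w i), ?_⟩
    rw [map_sum, ← hs s subset_rfl, map_prS]
    refine Finset.sum_congr rfl fun i _ => ?_
    rw [nat_apply, hw]

/-- The map from the free module on the elements. -/
noncomputable def frN (N : ModuleCat.{0} A) : Fr A N ⟶ N :=
  ModuleCat.ofHom (Finsupp.linearCombination A id)

lemma frN_surjective (N : ModuleCat.{0} A) : Function.Surjective (frN N).hom := by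
  intro n
  refine ⟨Finsupp.single n 1, ?_⟩
  change Finsupp.linearCombination A id (Finsupp.single n 1) = n
  simp

/-- The kernel. -/
noncomputable abbrev kerN (N : ModuleCat.{0} A) : ModuleCat.{0} A :=
  ModuleCat.of A (LinearMap.ker (frN N).hom)

/-- The inclusion of the kernel. -/
noncomputable def inN (N : ModuleCat.{0} A) : kerN N ⟶ Fr A N :=
  ModuleCat.ofHom (LinearMap.ker (frN N).hom).subtype

lemma inN_frN (N : ModuleCat.{0} A) : inN N ≫ frN N = 0 := by
  ext x
  exact x.2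

lemma inN_ex (N : ModuleCat.{0} A) (y : Fr A N) (hy : (frN N).hom y = 0) :
    ∃ x, (inN N).hom x = y := ⟨⟨y, hy⟩, rfl⟩

lemma inN_injective (N : ModuleCat.{0} A) : Function.Injective (inN N).hom :=
  Subtype.val_injective

variable (hW₂ : ExF W₂) (hW₁ : ExF W₁) (hW₀ : ExF W₀) (h0 : α ≫ β = 0)
  (f2 : DBr.Fin R W₂) (f1 : DBr.Fin R W₁) (f0 : DBr.Fin R W₀)
  (h : SEx α β (ModuleCat.of A A))

include hW₀ f2 f1 f0 h in
lemma all_sur (N : ModuleCat.{0} A) (e : W₀.obj N) : ∃ t, (β.app N).hom t = e := by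
  obtain ⟨e', he'⟩ := hW₀.sur _ (frN_surjective N) e
  obtain ⟨t, ht⟩ := (sex_free f2 f1 f0 h N).sur e'
  refine ⟨(W₁.map (frN N)).hom t, ?_⟩
  rw [nat_apply, ht, he']

include hW₁ hW₀ f2 f1 f0 h in
lemma all_mid (N : ModuleCat.{0} A) (t : W₁.obj N) (ht : (β.app N).hom t = 0) :
    ∃ w, (α.app N).hom w = t := by
  obtain ⟨t', ht'⟩ := hW₁.sur _ (frN_surjective N) t
  obtain ⟨e, he⟩ := hW₀.ex _ _ (inN_frN N) (inN_ex N) ((β.app _).hom t') (by
    rw [← nat_apply, ht', ht])
  obtain ⟨s, hs⟩ := all_sur hW₀ f2 f1 f0 h (kerN N) e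
  obtain ⟨w, hw⟩ := (sex_free f2 f1 f0 h N).mid (t' - (W₁.map (inN N)).hom s) (by
    rw [map_sub, nat_apply, hs, he, sub_self])
  refine ⟨(W₂.map (frN N)).hom w, ?_⟩
  have h1 : (W₁.map (frN N)).hom ((W₁.map (inN N)).hom s) = 0 := by
    have h2 : (W₁.map (inN N ≫ frN N)).hom s = 0 := by
      rw [inN_frN, W₁.map_zero]
      rfl
    rw [W₁.map_comp] at h2
    exact h2
  rw [nat_apply, hw, map_sub, ht', h1, sub_zero]

include hW₂ hW₁ hW₀ h0 f2 f1 f0 h in
lemma all_inj (N : ModuleCat.{0} A) (w : W₂.obj N) (hw : (α.app N).hom w = 0) : w = 0 := by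
  obtain ⟨w', hw'⟩ := hW₂.sur _ (frN_surjective N) w
  obtain ⟨t, ht⟩ := hW₁.ex _ _ (inN_frN N) (inN_ex N) ((α.app _).hom w') (by
    rw [← nat_apply, hw', hw])
  have h1 : (β.app (kerN N)).hom t = 0 := by
    apply hW₀.inj _ (inN_injective N)
    rw [← nat_apply, ht, map_zero]
    exact congrArg (fun s => (ModuleCat.Hom.hom (NatTrans.app s (Fr A N))) w') h0
  obtain ⟨v, hv⟩ := all_mid hW₁ hW₀ f2 f1 f0 h (kerN N) t h1
  have h2 : w' = (W₂.map (inN N)).hom v := by
    rw [← sub_eq_zero]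
    apply (sex_free f2 f1 f0 h N).inj
    rw [map_sub, nat_apply, hv, ht, sub_self]
  rw [← hw', h2]
  have h3 : (W₂.map (inN N ≫ frN N)).hom v = 0 := by
    rw [inN_frN, W₂.map_zero]
    rfl
  rw [W₂.map_comp] at h3
  exact h3

include hW₂ hW₁ hW₀ h0 f2 f1 f0 h in
theorem sex_all (N : ModuleCat.{0} A) : SEx α β N where
  inj w hw := all_inj hW₂ hW₁ hW₀ h0 f2 f1 f0 h N w hw
  mid t ht := all_mid hW₁ hW₀ f2 f1 f0 h N t ht
  sur e := all_sur hW₀ f2 f1 f0 h N e

end

end DBr
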