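import Pool.Agent.DBr.ModAdj
import Pool.Agent.DBr.Resol

/-! The natural transformations given by a two-term complex of bimodules. -/

open CategoryTheory Limits

set_option linter.unusedSectionVars false

namespace DBr

section

variable {R S Y Y' : Type} [Ring R] [Ring S] [AddCommGroup Y] [Module R Y] [Module Sᵐᵒᵖ Y]
  [SMulCommClass R Sᵐᵒᵖ Y] [AddCommGroup Y'] [Module R Y'] [Module Sᵐᵒᵖ Y']
  [SMulCommClass R Sᵐᵒᵖ Y'] (δ : Y' →ₗ[R] Y)
  (hδ : ∀ (s : S) y, δ (MulOpposite.op s • y) = MulOpposite.op s • δ y)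

/-- Precomposition with a bimodule map. -/
def HB.pre (hδ : ∀ (s : S) y, δ (MulOpposite.op s • y) = MulOpposite.op s • δ y)
    {N : Type} [AddCommGroup N] [Module R N] : HB R S Y N →ₗ[S] HB R S Y' N where
  toFun f := HB.mk (f.toLin ∘ₗ δ)
  map_add' f g := by
    ext y
    rfl
  map_smul' s f := by
    ext y
    exact congrArg f.toLin (hδ s y).symm

/-- Precomposition with a bimodule map, as a natural transformation. -/
def preT (hδ : ∀ (s : S) y, δ (MulOpposite.op s • y) = MulOpposite.op s • δ y) :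
    homF R S Y ⟶ homF R S Y' where
  app N := ModuleCat.ofHom (HB.pre δ hδ)
  naturality M N f := by
    ext1
    rfl

end

variable {C A X₁ X₀ : Type} [Ring C] [Ring A] [AddCommGroup X₁] [Module C X₁] [Module Aᵐᵒᵖ X₁]
  [SMulCommClass C Aᵐᵒᵖ X₁] [AddCommGroup X₀] [Module C X₀] [Module Aᵐᵒᵖ X₀]
  [SMulCommClass C Aᵐᵒᵖ X₀] (d : X₁ →ₗ[C] X₀)
  (hd : ∀ (a : A) x, d (MulOpposite.op a • x) = MulOpposite.op a • d x)

/-- The transpose. -/
def dT (hd : ∀ (a : A) x, d (MulOpposite.op a • x) = MulOpposite.op a • d x) :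
    Dl C A X₀ →ₗ[A] Dl C A X₁ where
  toFun ξ := Dl.mk
    { toFun := fun x => ξ (d x)
      map_add' := fun x y => by rw [map_add, Dl.map_add]
      map_smul' := fun r x => by
        obtain ⟨a, rfl⟩ := MulOpposite.op_surjective r
        rw [hd, Dl.map_smul]
        rfl }
  map_add' ξ η := by
    ext x
    rfl
  map_smul' a ξ := by
    ext x
    rfl

@[simp] lemma dT_apply (ξ : Dl C A X₀) (x : X₁) : (dT d hd ξ) x = ξ (d x) := rfl

lemma dT_op (c : C) (ξ : Dl C A X₀) :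
    dT d hd (MulOpposite.op c • ξ) = MulOpposite.op c • dT d hd ξ := by
  ext x
  simp

/-- The natural transformation between the tensor products. -/
def phi (hd : ∀ (a : A) x, d (MulOpposite.op a • x) = MulOpposite.op a • d x) :
    tF C A X₁ ⟶ tF C A X₀ := preT (dT d hd) (dT_op d hd)

/-- The natural transformation between the homomorphism functors. -/
def gam (hd : ∀ (a : A) x, d (MulOpposite.op a • x) = MulOpposite.op a • d x) :
    hF C A X₀ ⟶ hF C A X₁ := preT d hd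

lemma phi_ev (N : ModuleCat.{0} A) (x : X₁) (n : N) :
    ((phi d hd).app N).hom (ev x n) = ev (d x) n := rfl

lemma conj_phi_gam (D₁ : DBasis A X₁) (D₀ : DBasis A X₀) (N : ModuleCat.{0} A)
    (M : ModuleCat.{0} C) (f : (tF C A X₀).obj N ⟶ M) :
    (thAdj C D₁).homEquiv N M ((phi d hd).app N ≫ f) =
      (thAdj C D₀).homEquiv N M f ≫ (gam d hd).app M := by
  refine ModuleCat.hom_ext (LinearMap.ext fun n => ?_)
  refine HB.ext (R := C) (S := A) (Y := X₁) (N := M) fun x => ?_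
  rw [thAdj_homEquiv_apply]
  exact (thAdj_homEquiv_apply C D₀ N M f n (d x)).symm

section

variable {X : Type} [AddCommGroup X] [Module C X] [Module Aᵐᵒᵖ X] [SMulCommClass C Aᵐᵒᵖ X]
  (D : DBasis A X)

include D in
lemma DBasis.sep {x y : X} (h : ∀ ξ : Dl C A X, ξ x = ξ y) : x = y := by
  rw [← D.sum x, ← D.sum y]
  refine Finset.sum_congr rfl fun j _ => ?_
  rw [show D.ξ j x = D.ξ j y from h (Dl.mk (D.ξ j))]

/-- The map from the bidual. -/
def toX (f : HB A C (Dl C A X) A) : X := ∑ j, MulOpposite.op (f (Dl.mk (D.ξ j))) • D.x j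

lemma toX_spec (f : HB A C (Dl C A X) A) (ξ : Dl C A X) : ξ (toX D f) = f ξ := by
  rw [toX, Dl.map_sum]
  conv_rhs => rw [← D.dual ξ]
  rw [show f (∑ j, ξ (D.x j) • (Dl.mk (C := C) (D.ξ j))) =
    ∑ j, f (ξ (D.x j) • (Dl.mk (C := C) (D.ξ j))) from map_sum f.toLin _ _]
  refine Finset.sum_congr rfl fun j _ => ?_
  rw [Dl.map_smul, HB.map_smul]
  rfl

/-- The map from the bidual, as a linear map. -/
def toXl : HB A C (Dl C A X) A →ₗ[C] X where
  toFun := toX D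
  map_add' f g := D.sep (C := C) fun ξ => by
    rw [toX_spec, Dl.map_add, toX_spec, toX_spec, HB.add_apply]
  map_smul' c f := D.sep (C := C) fun ξ => by
    rw [toX_spec, RingHom.id_apply, ← Dl.op_smul_apply, toX_spec, HB.smul_apply]

/-- The map to the bidual, as a linear map. -/
def ofXl (C A X : Type) [Ring C] [Ring A] [AddCommGroup X] [Module C X] [Module Aᵐᵒᵖ X]
    [SMulCommClass C Aᵐᵒᵖ X] : X →ₗ[C] HB A C (Dl C A X) A where
  toFun x := ev x (1 : A)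
  map_add' x y := ev_add_left x y 1
  map_smul' c x := ev_smul_left c x 1

lemma ofXl_apply (x : X) (ξ : Dl C A X) : (ofXl C A X x) ξ = ξ x := mul_one _

end

section

lemma unit_eq {X : Type} [AddCommGroup X] [Module C X] [Module Aᵐᵒᵖ X] [SMulCommClass C Aᵐᵒᵖ X]
    (D : DBasis A X) (N : ModuleCat.{0} A) : (thAdj C D).unit.app N =
      ModuleCat.ofHom (toG (C := C) (X := X) (N := N) LinearMap.id) := by
  have h := (thAdj C D).homEquiv_id N
  rw [← h]
  refine ModuleCat.hom_ext (LinearMap.ext fun n => ?_)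
  refine HB.ext (R := C) (S := A) (Y := X) (N := HB A C (Dl C A X) N) fun x => ?_
  exact thAdj_homEquiv_apply C D N _ _ n x

/-- Transport of maps to the tensor product along the transpose. -/
abbrev phl (hd : ∀ (a : A) x, d (MulOpposite.op a • x) = MulOpposite.op a • d x)
    (N : Type) [AddCommGroup N] [Module A N] :
    HB A C (Dl C A X₁) N →ₗ[C] HB A C (Dl C A X₀) N := HB.pre (dT d hd) (dT_op d hd)

/-- The first map of the exact sequence. -/
def alph (hd : ∀ (a : A) x, d (MulOpposite.op a • x) = MulOpposite.op a • d x) :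
    prodF (tF C A X₁ ⋙ hF C A X₀) (𝟭 (ModuleCat.{0} A)) ⟶
      prodF (tF C A X₀ ⋙ hF C A X₀) (tF C A X₁ ⋙ hF C A X₁) where
  app N := ModuleCat.ofHom (LinearMap.prod
    (LinearMap.coprod (HB.post (phl d hd N)) (toG (C := C) (X := X₀) (N := N) LinearMap.id))
    (LinearMap.coprod (HB.pre d hd) (toG (C := C) (X := X₁) (N := N) LinearMap.id)))
  naturality M N f := by
    have h : ∀ (m k : M) (a : A), f.hom (m + a • k) = f.hom m + a • f.hom k := fun m k a => by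
      rw [map_add, map_smul]
    refine ModuleCat.hom_ext (LinearMap.ext ?_)
    rintro ⟨w, n⟩
    refine Prod.ext ?_ ?_
    · refine HB.ext (R := C) (S := A) (Y := X₀) (N := HB A C (Dl C A X₀) N) fun x => ?_
      refine HB.ext (R := A) (S := C) (Y := Dl C A X₀) (N := N) fun ξ => ?_
      exact (h _ n (ξ x)).symm
    · refine HB.ext (R := C) (S := A) (Y := X₁) (N := HB A C (Dl C A X₁) N) fun x => ?_
      refine HB.ext (R := A) (S := C) (Y := Dl C A X₁) (N := N) fun ξ => ?_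
      exact (h _ n (ξ x)).symm

/-- The second map of the exact sequence. -/
def bet (hd : ∀ (a : A) x, d (MulOpposite.op a • x) = MulOpposite.op a • d x) :
    prodF (tF C A X₀ ⋙ hF C A X₀) (tF C A X₁ ⋙ hF C A X₁) ⟶ tF C A X₀ ⋙ hF C A X₁ where
  app N := ModuleCat.ofHom (LinearMap.coprod (HB.pre d hd) (-(HB.post (phl d hd N))))
  naturality M N f := by
    refine ModuleCat.hom_ext (LinearMap.ext ?_)
    rintro ⟨q, r⟩
    refine HB.ext (R := C) (S := A) (Y := X₁) (N := HB A C (Dl C A X₀) N) fun x => ?_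
    refine HB.ext (R := A) (S := C) (Y := Dl C A X₀) (N := N) fun ξ => ?_
    change f.hom _ + -(f.hom _) = f.hom (_ + -_)
    rw [map_add, map_neg]
    rfl

/-- evaluation twice -/
abbrev e2 {Y X : Type} [AddCommGroup Y] [Module C Y] [Module Aᵐᵒᵖ Y] [SMulCommClass C Aᵐᵒᵖ Y]
    [AddCommGroup X] [Module C X] [Module Aᵐᵒᵖ X] [SMulCommClass C Aᵐᵒᵖ X] {N : Type}
    [AddCommGroup N] [Module A N] (w : HB C A Y (HB A C (Dl C A X) N)) (y : Y) (ξ : Dl C A X) : N :=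
  (HB.toLin (w y)) ξ

lemma alph_fst (N : ModuleCat.{0} A) (w : HB C A X₀ (HB A C (Dl C A X₁) N)) (n : N) (x : X₀)
    (ξ : Dl C A X₀) : e2 (C := C) (A := A) (N := N) (((alph d hd).app N).hom (w, n)).1 x ξ =
      e2 w x (dT d hd ξ) + ξ x • n := rfl

lemma alph_snd (N : ModuleCat.{0} A) (w : HB C A X₀ (HB A C (Dl C A X₁) N)) (n : N) (x : X₁)
    (ξ : Dl C A X₁) : e2 (C := C) (A := A) (N := N) (((alph d hd).app N).hom (w, n)).2 x ξ =
      e2 w (d x) ξ + ξ x • n := rfl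

lemma bet_apply (N : ModuleCat.{0} A) (q : HB C A X₀ (HB A C (Dl C A X₀) N))
    (r : HB C A X₁ (HB A C (Dl C A X₁) N)) (x : X₁) (ξ : Dl C A X₀) :
    e2 (C := C) (A := A) (N := N) (((bet d hd).app N).hom (q, r)) x ξ =
      e2 q (d x) ξ + -e2 r x (dT d hd ξ) := rfl

lemma e2_ext {Y X : Type} [AddCommGroup Y] [Module C Y] [Module Aᵐᵒᵖ Y] [SMulCommClass C Aᵐᵒᵖ Y]
    [AddCommGroup X] [Module C X] [Module Aᵐᵒᵖ X] [SMulCommClass C Aᵐᵒᵖ X] {N : Type}
    [AddCommGroup N] [Module A N] {w w' : HB C A Y (HB A C (Dl C A X) N)}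
    (h : ∀ y ξ, e2 w y ξ = e2 w' y ξ) : w = w' :=
  HB.ext fun y => HB.ext fun ξ => h y ξ

lemma alph_bet : alph d hd ≫ bet d hd = 0 := by
  ext N x
  obtain ⟨w, n⟩ := x
  refine e2_ext (C := C) (A := A) (Y := X₁) (X := X₀) (N := N) fun x ξ => ?_
  exact add_neg_cancel (e2 (C := C) (A := A) (N := N) w (d x) (dT d hd ξ) +
    ξ (d x) • (show (N : Type) from n))

variable (sur : ∀ f : X₁ →ₗ[C] X₀, ∃ (α : X₁ →ₗ[C] X₁) (β : X₀ →ₗ[C] X₀), f = d ∘ₗ α + β ∘ₗ d)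
  (inj : ∀ u : X₀ →ₗ[C] X₁, u ∘ₗ d = 0 → d ∘ₗ u = 0 → u = 0)
  (mid : ∀ (α : X₁ →ₗ[C] X₁) (β : X₀ →ₗ[C] X₀), d ∘ₗ α = β ∘ₗ d → ∃! a : A, ∃ u : X₀ →ₗ[C] X₁,
    (∀ x, α x = MulOpposite.op a • x + u (d x)) ∧ ∀ x, β x = MulOpposite.op a • x + d (u x))
  (D₁ : DBasis A X₁) (D₀ : DBasis A X₀)

/-- The linear map attached to a map to the bidual. -/
def lin {Y X : Type} [AddCommGroup Y] [Module C Y] [Module Aᵐᵒᵖ Y] [SMulCommClass C Aᵐᵒᵖ Y]
    [AddCommGroup X] [Module C X] [Module Aᵐᵒᵖ X] [SMulCommClass C Aᵐᵒᵖ X] (D : DBasis A X)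
    (w : HB C A Y (HB A C (Dl C A X) A)) : Y →ₗ[C] X := toXl D ∘ₗ HB.toLin w

lemma lin_spec {Y X : Type} [AddCommGroup Y] [Module C Y] [Module Aᵐᵒᵖ Y] [SMulCommClass C Aᵐᵒᵖ Y]
    [AddCommGroup X] [Module C X] [Module Aᵐᵒᵖ X] [SMulCommClass C Aᵐᵒᵖ X] (D : DBasis A X)
    (w : HB C A Y (HB A C (Dl C A X) A)) (y : Y) (ξ : Dl C A X) : ξ (lin D w y) = e2 w y ξ :=
  toX_spec D _ ξ

/-- The map to the bidual attached to a linear map. -/
def nil {Y X : Type} [AddCommGroup Y] [Module C Y] [Module Aᵐᵒᵖ Y] [SMulCommClass C Aᵐᵒᵖ Y]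
    [AddCommGroup X] [Module C X] [Module Aᵐᵒᵖ X] [SMulCommClass C Aᵐᵒᵖ X]
    (u : Y →ₗ[C] X) : HB C A Y (HB A C (Dl C A X) A) := HB.mk (ofXl C A X ∘ₗ u)

lemma nil_spec {Y X : Type} [AddCommGroup Y] [Module C Y] [Module Aᵐᵒᵖ Y] [SMulCommClass C Aᵐᵒᵖ Y]
    [AddCommGroup X] [Module C X] [Module Aᵐᵒᵖ X] [SMulCommClass C Aᵐᵒᵖ X]
    (u : Y →ₗ[C] X) (y : Y) (ξ : Dl C A X) : e2 (nil u) y ξ = ξ (u y) := mul_one _

include mid inj D₁ D₀ in
lemma sexA_inj (w : HB C A X₀ (HB A C (Dl C A X₁) A)) (a : A)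
    (h0 : ∀ x ξ, e2 w x (dT d hd ξ) + ξ x * a = 0)
    (h1 : ∀ x ξ, e2 w (d x) ξ + ξ x * a = 0) : w = 0 ∧ a = 0 := by
  set u : X₀ →ₗ[C] X₁ := lin D₁ w with hu
  have h2 : ∀ x, (0 : X₀ →ₗ[C] X₀) x = MulOpposite.op a • x + d (u x) := by
    intro x
    apply D₀.sep (C := C)
    intro ξ
    rw [Dl.map_add, Dl.map_smul, ← dT_apply d hd, hu, lin_spec, add_comm, h0]
    exact LinearMap.map_zero ξ.toLin
  have h3 : ∀ x, (0 : X₁ →ₗ[C] X₁) x = MulOpposite.op a • x + u (d x) := by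
    intro x
    apply D₁.sep (C := C)
    intro ξ
    rw [Dl.map_add, Dl.map_smul, hu, lin_spec, add_comm, h1]
    exact LinearMap.map_zero ξ.toLin
  obtain ⟨a', -, ha'⟩ := mid 0 0 (by simp)
  have h4 : a = 0 := by
    rw [ha' a ⟨u, h3, h2⟩, ha' 0 ⟨0, by simp, by simp⟩]
  subst h4
  have h5 : u = 0 := by
    apply inj
    · ext x
      have := h3 x
      simp only [MulOpposite.op_zero, zero_smul, zero_add] at this
      exact this.symm
    · ext x
      have := h2 x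
      simp only [MulOpposite.op_zero, zero_smul, zero_add] at this
      exact this.symm
  refine ⟨e2_ext fun x ξ => ?_, rfl⟩
  rw [← lin_spec D₁, ← hu, h5]
  exact LinearMap.map_zero ξ.toLin

include mid D₁ D₀ in
lemma sexA_mid (q : HB C A X₀ (HB A C (Dl C A X₀) A)) (r : HB C A X₁ (HB A C (Dl C A X₁) A))
    (h : ∀ x ξ, e2 q (d x) ξ + -e2 r x (dT d hd ξ) = 0) :
    ∃ (w : HB C A X₀ (HB A C (Dl C A X₁) A)) (a : A),
      (∀ x ξ, e2 w x (dT d hd ξ) + ξ x * a = e2 q x ξ) ∧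
      ∀ x ξ, e2 w (d x) ξ + ξ x * a = e2 r x ξ := by
  set β : X₀ →ₗ[C] X₀ := lin D₀ q with hβ
  set α : X₁ →ₗ[C] X₁ := lin D₁ r with hα
  have h1 : d ∘ₗ α = β ∘ₗ d := by
    ext x
    apply D₀.sep (C := C)
    intro ξ
    rw [LinearMap.comp_apply, LinearMap.comp_apply, ← dT_apply d hd, hα, hβ, lin_spec, lin_spec]
    exact (eq_of_sub_eq_zero ((sub_eq_add_neg _ _).trans (h x ξ))).symm
  obtain ⟨a, ⟨u, hu1, hu2⟩, -⟩ := mid α β h1
  refine ⟨nil u, a, fun x ξ => ?_, fun x ξ => ?_⟩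
  · rw [← lin_spec D₀ q, ← hβ, hu2, Dl.map_add, Dl.map_smul, nil_spec, dT_apply, add_comm]
  · rw [← lin_spec D₁ r, ← hα, hu1, Dl.map_add, Dl.map_smul, nil_spec, add_comm]

include sur D₀ in
lemma sexA_sur (t : HB C A X₁ (HB A C (Dl C A X₀) A)) :
    ∃ (q : HB C A X₀ (HB A C (Dl C A X₀) A)) (r : HB C A X₁ (HB A C (Dl C A X₁) A)),
      ∀ x ξ, e2 q (d x) ξ + -e2 r x (dT d hd ξ) = e2 t x ξ := by
  obtain ⟨α, β, h⟩ := sur (lin D₀ t)
  refine ⟨nil β, nil (-α), fun x ξ => ?_⟩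
  rw [← lin_spec D₀ t, h, LinearMap.add_apply, Dl.map_add, nil_spec, nil_spec, dT_apply,
    LinearMap.neg_apply, map_neg, add_comm]
  congr 1
  rw [neg_eq_iff_eq_neg]
  exact LinearMap.map_neg ξ.toLin _

include sur inj mid D₁ D₀ in
theorem sex_A : SEx (alph d hd) (bet d hd) (ModuleCat.of A A) where
  inj := by
    rintro ⟨w, a⟩ h
    have h' := sexA_inj d hd inj mid D₁ D₀ w a
      (fun x ξ => congrArg (fun t : HB C A X₀ (HB A C (Dl C A X₀) A) => e2 t x ξ)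
        (Prod.ext_iff.1 h).1)
      (fun x ξ => congrArg (fun t : HB C A X₁ (HB A C (Dl C A X₁) A) => e2 t x ξ)
        (Prod.ext_iff.1 h).2)
    exact Prod.ext h'.1 h'.2
  mid := by
    rintro ⟨q, r⟩ h
    obtain ⟨w, a, h1, h2⟩ := sexA_mid d hd mid D₁ D₀ q r
      (fun x ξ => congrArg (fun t : HB C A X₁ (HB A C (Dl C A X₀) A) => e2 t x ξ) h)
    exact ⟨(w, a), Prod.ext (e2_ext (C := C) (A := A) (N := A) h1)
      (e2_ext (C := C) (A := A) (N := A) h2)⟩
  sur t := by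
    obtain ⟨q, r, h⟩ := sexA_sur d hd sur D₀ t
    exact ⟨(q, r), e2_ext (C := C) (A := A) (N := A) h⟩

end

end DBr
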