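import Pool.Agent.DBr.Adj

/-! The unit of the adjunction is a quasi-isomorphism. -/

open CategoryTheory Category Limits Preadditive CochainComplex CochainComplex.HomComplex
open Pretriangulated

set_option backward.defeqAttrib.useBackward true
set_option backward.isDefEq.respectTransparency false
set_option linter.unusedSectionVars false

namespace DBr

universe w v₁ v₂ u₁ u₂

section Acyclic

variable {A : Type u₁} [Category.{v₁} A] [Abelian A] [HasDerivedCategory.{w} A]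

lemma isZero_Q_iff (K : CochainComplex A ℤ) :
    IsZero (DerivedCategory.Q.obj K) ↔ ∀ n, K.ExactAt n := by
  constructor
  · intro h n
    rw [HomologicalComplex.exactAt_iff_isZero_homology]
    exact ((DerivedCategory.homologyFunctor A n).map_isZero h).of_iso
      ((DerivedCategory.homologyFunctorFactors A n).app K).symm
  · intro h
    have h1 : QuasiIso (0 : K ⟶ K) := by
      rw [quasiIso_iff]
      intro n
      rw [quasiIsoAt_iff_isIso_homologyMap]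
      have h2 : IsZero (K.homology n) := by
        rw [← HomologicalComplex.exactAt_iff_isZero_homology]
        exact h n
      exact ⟨0, h2.eq_of_src _ _, h2.eq_of_src _ _⟩
    have h3 : IsIso (DerivedCategory.Q.map (0 : K ⟶ K)) := inferInstance
    rw [DerivedCategory.Q.map_zero] at h3
    exact ((isIsoZero_iff_source_target_isZero _ _).1 h3).1

lemma quasiIso_of_cone {K L : CochainComplex A ℤ} (f : K ⟶ L)
    (h : ∀ n, (mappingCone f).ExactAt n) : QuasiIso f := by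
  have _ : HasDerivedCategory A := inferInstance
  rw [← DerivedCategory.isIso_Q_map_iff_quasiIso]
  exact (Triangle.isZero₃_iff_isIso₁ _
    (DerivedCategory.mappingCone_triangle_distinguished f)).1 ((isZero_Q_iff _).2 h)

end Acyclic

section

variable {A : Type u₁} {B : Type u₂} [Category.{v₁} A] [Category.{v₂} B] [Preadditive A]
  [Preadditive B] [HasBinaryBiproducts A] [HasBinaryBiproducts B]
  {F₁ F₀ : A ⥤ B} [F₁.Additive] [F₀.Additive] (φ : F₁ ⟶ F₀) (K : CochainComplex A ℤ)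
  (G : B ⥤ A) [G.Additive]

@[reassoc (attr := simp)]
lemma Gcinl_cfst (p q : ℤ) (h : q + 1 = p) :
    G.map (cinl φ K p q h) ≫ G.map (cfst φ K q p h) = 𝟙 _ := by
  rw [← G.map_comp, cinl_cfst, G.map_id]

@[reassoc (attr := simp)]
lemma Gcinl_csnd (p q : ℤ) (h : q + 1 = p) :
    G.map (cinl φ K p q h) ≫ G.map (csnd φ K q) = 0 := by
  rw [← G.map_comp, cinl_csnd, G.map_zero]

@[reassoc (attr := simp)]
lemma Gcinr_cfst (p q : ℤ) (h : p + 1 = q) :
    G.map (cinr φ K p) ≫ G.map (cfst φ K p q h) = 0 := by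
  rw [← G.map_comp, cinr_cfst, G.map_zero]

@[reassoc (attr := simp)]
lemma Gcinr_csnd (p : ℤ) : G.map (cinr φ K p) ≫ G.map (csnd φ K p) = 𝟙 _ := by
  rw [← G.map_comp, cinr_csnd, G.map_id]

@[reassoc]
lemma Gd_cfst (p q r : ℤ) (h : p + 1 = q) (h' : q + 1 = r) :
    G.map (((coneF φ).obj K).d p q) ≫ G.map (cfst φ K q r h') =
      -G.map (cfst φ K p q h) ≫ G.map (F₁.map (K.d q r)) := by
  rw [← G.map_comp, d_cfst φ K p q r h h', G.map_neg, G.map_comp]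

@[reassoc]
lemma Gd_csnd (p q : ℤ) (h : p + 1 = q) :
    G.map (((coneF φ).obj K).d p q) ≫ G.map (csnd φ K q) =
      G.map (cfst φ K p q h) ≫ G.map (φ.app (K.X q)) +
        G.map (csnd φ K p) ≫ G.map (F₀.map (K.d p q)) := by
  rw [← G.map_comp, d_csnd φ K p q h, G.map_add, G.map_comp, G.map_comp]

variable {K}

lemma Gcext_to (p q : ℤ) (h : p + 1 = q) {Z : A} {f g : Z ⟶ G.obj (((coneF φ).obj K).X p)}
    (h₁ : f ≫ G.map (cfst φ K p q h) = g ≫ G.map (cfst φ K p q h))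
    (h₂ : f ≫ G.map (csnd φ K p) = g ≫ G.map (csnd φ K p)) : f = g := by
  rw [← comp_id f, ← comp_id g, ← G.map_id, ← cid φ K p q h, G.map_add, G.map_comp, G.map_comp,
    comp_add, comp_add, reassoc_of% h₁, reassoc_of% h₂]

end

section Chase

variable {A : Type u₁} {B : Type u₂} [Category.{v₁} A] [Category.{v₂} B] [Abelian A]
  [Abelian B] {F₁ F₀ : A ⥤ B} [F₁.Additive] [F₀.Additive] (φ : F₁ ⟶ F₀)
  {G₀ G₁ : B ⥤ A} [G₀.Additive] [G₁.Additive] (γ : G₀ ⟶ G₁) (adj₁ : F₁ ⊣ G₁) (adj₀ : F₀ ⊣ G₀)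
  (hc : ∀ (M : A) (N : B) (f : F₀.obj M ⟶ N),
    adj₁.homEquiv M N (φ.app M ≫ f) = adj₀.homEquiv M N f ≫ γ.app N)

/-- The unit, with the target in unfolded form. -/
def un {F : A ⥤ B} {G : B ⥤ A} (adj : F ⊣ G) (N : A) : N ⟶ G.obj (F.obj N) := adj.unit.app N

lemma un_naturality {F : A ⥤ B} {G : B ⥤ A} (adj : F ⊣ G) {N N' : A} (f : N ⟶ N') :
    f ≫ un adj N' = un adj N ≫ G.map (F.map f) := (adj.unit_naturality f).symm

/-- The unit of the adjunction on complexes, with the target in unfolded form. -/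
noncomputable def cun (K : CochainComplex A ℤ) :
    K ⟶ (coconeF γ).obj ((coneF φ).obj K) := (cAdj φ γ adj₁ adj₀ hc).unit.app K

@[reassoc (attr := simp)]
lemma cun_kfst (K : CochainComplex A ℤ) (p : ℤ) :
    (cun φ γ adj₁ adj₀ hc K).f p ≫ kfst γ ((coneF φ).obj K) p =
      un adj₀ (K.X p) ≫ G₀.map (cinr φ K p) := by
  simp [cun, cAdj, cHomEquiv, Adjunction.homEquiv_unit, un]

@[reassoc (attr := simp)]
lemma cun_ksnd (K : CochainComplex A ℤ) (p q : ℤ) (h : q + 1 = p) :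
    (cun φ γ adj₁ adj₀ hc K).f p ≫ ksnd γ ((coneF φ).obj K) p q h =
      -(un adj₁ (K.X p) ≫ G₁.map (cinl φ K p q h)) := by
  simp [cun, cAdj, cHomEquiv, Adjunction.homEquiv_unit, un]

/-- The exactness hypothesis, in terms of generalized elements. -/
structure ExSeq : Prop where
  inj : ∀ (N T : A) (w : T ⟶ G₀.obj (F₁.obj N)) (n : T ⟶ N),
    w ≫ G₀.map (φ.app N) + n ≫ un adj₀ N = 0 →
    w ≫ γ.app (F₁.obj N) + n ≫ un adj₁ N = 0 → w = 0 ∧ n = 0
  mid : ∀ (N T : A) (b : T ⟶ G₀.obj (F₀.obj N)) (c : T ⟶ G₁.obj (F₁.obj N)),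
    b ≫ γ.app (F₀.obj N) = c ≫ G₁.map (φ.app N) → ∃ (T' : A) (π : T' ⟶ T) (_ : Epi π)
      (w : T' ⟶ G₀.obj (F₁.obj N)) (n : T' ⟶ N),
      π ≫ b = w ≫ G₀.map (φ.app N) + n ≫ un adj₀ N ∧
      π ≫ c = w ≫ γ.app (F₁.obj N) + n ≫ un adj₁ N
  sur : ∀ (N T : A) (e : T ⟶ G₁.obj (F₀.obj N)), ∃ (T' : A) (π : T' ⟶ T) (_ : Epi π)
      (b : T' ⟶ G₀.obj (F₀.obj N)) (c : T' ⟶ G₁.obj (F₁.obj N)),
      π ≫ e = b ≫ γ.app (F₀.obj N) + c ≫ G₁.map (φ.app N)

variable {φ γ adj₁ adj₀}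

lemma chase (h : ExSeq φ γ adj₁ adj₀) (K : CochainComplex A ℤ) :
    QuasiIso (cun φ γ adj₁ adj₀ hc K) := by
  have _ : HasDerivedCategory A := HasDerivedCategory.standard A
  apply quasiIso_of_cone
  intro n
  set U := cun φ γ adj₁ adj₀ hc K with hU
  have U1 : ∀ p, U.f p ≫ kfst γ ((coneF φ).obj K) p =
      un adj₀ (K.X p) ≫ G₀.map (cinr φ K p) := cun_kfst φ γ adj₁ adj₀ hc K
  have U2 : ∀ p q h, U.f p ≫ ksnd γ ((coneF φ).obj K) p q h =
      -(un adj₁ (K.X p) ≫ G₁.map (cinl φ K p q h)) := cun_ksnd φ γ adj₁ adj₀ hc K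
  obtain ⟨m, hm⟩ : ∃ m, m + 1 = n := ⟨n - 1, by lia⟩
  obtain ⟨r, hr⟩ : ∃ r, r + 1 = m := ⟨m - 1, by lia⟩
  obtain ⟨p, hp⟩ : ∃ p, n + 1 = p := ⟨_, rfl⟩
  obtain ⟨q, hq⟩ : ∃ q, p + 1 = q := ⟨_, rfl⟩
  rw [HomologicalComplex.exactAt_iff_exact_up_to_refinements _ m n p (by simp [← hm])
    (by simp [hp])]
  intro T x hx
  -- the components of `x`
  set k := x ≫ (mappingCone.fst U).1.v n p hp with hk
  set z := x ≫ (mappingCone.snd U).v n n (add_zero n) with hz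
  set a := z ≫ kfst γ _ n ≫ G₀.map (cfst φ K n p hp) with ha
  set b := z ≫ kfst γ _ n ≫ G₀.map (csnd φ K n) with hb
  set c := z ≫ ksnd γ _ n m hm ≫ G₁.map (cfst φ K m n hm) with hcc
  set e := z ≫ ksnd γ _ n m hm ≫ G₁.map (csnd φ K m) with he
  have e0 : k ≫ U.f p + z ≫ ((coconeF γ).obj ((coneF φ).obj K)).d n p = 0 := by
    have h1 : (x ≫ (mappingCone U).d n p) ≫ (mappingCone.snd U).v p p (add_zero p) = 0 := by
      rw [hx, zero_comp]
    rw [assoc, mappingCone.d_snd_v U n p hp, comp_add] at h1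
    rw [hk, hz, assoc, assoc]
    exact h1
  have e1 : k ≫ un adj₀ (K.X p) + a ≫ G₀.map (φ.app (K.X p)) +
      b ≫ G₀.map (F₀.map (K.d n p)) = 0 := by
    have h1 := congrArg (fun f => f ≫ kfst γ _ p ≫ G₀.map (csnd φ K p)) e0
    simpa [U1, reassoc_of% U1, Gd_csnd φ K G₀ n p hp, ha, hb, ← add_assoc] using h1
  have e2 : -(k ≫ un adj₁ (K.X p)) - a ≫ γ.app (F₁.obj (K.X p)) +
      c ≫ G₁.map (F₁.map (K.d n p)) = 0 := by
    have h1 := congrArg (fun f => f ≫ ksnd γ _ p n hp ≫ G₁.map (cfst φ K n p hp)) e0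
    simp only [add_comp, assoc, reassoc_of% U2, kd_ksnd_assoc γ _ n p m hm hp, neg_comp, comp_neg,
      Gcinl_cfst, comp_id, sub_comp, Gd_cfst φ K G₁ m n p hm hp, zero_comp, sub_neg_eq_add,
      ← NatTrans.naturality] at h1
    rw [← h1]
    simp only [ha, hcc, assoc, comp_add, comp_neg]
    abel
  have e3 : -(b ≫ γ.app (F₀.obj (K.X n))) - c ≫ G₁.map (φ.app (K.X n)) -
      e ≫ G₁.map (F₀.map (K.d m n)) = 0 := by
    have h1 := congrArg (fun f => f ≫ ksnd γ _ p n hp ≫ G₁.map (csnd φ K n)) e0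
    simp only [add_comp, assoc, reassoc_of% U2, kd_ksnd_assoc γ _ n p m hm hp, neg_comp, comp_neg,
      Gcinl_csnd, comp_zero, neg_zero, zero_add, sub_comp, comp_sub, Gd_csnd φ K G₁ m n hm,
      zero_comp, comp_add, ← NatTrans.naturality] at h1
    rw [← h1, hb, hcc, he]
    simp only [assoc]
    abel
  obtain ⟨T₁, π₁, hπ₁, b', c', hs⟩ := h.sur (K.X m) T e
  set b₁ := π₁ ≫ b + b' ≫ G₀.map (F₀.map (K.d m n)) with hb₁
  set c₁ := π₁ ≫ c + c' ≫ G₁.map (F₁.map (K.d m n)) with hc₁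
  have N0 : ∀ m n, un adj₀ (K.X m) ≫ G₀.map (F₀.map (K.d m n)) = K.d m n ≫ un adj₀ (K.X n) :=
    fun m n => adj₀.unit_naturality (K.d m n)
  have N1 : ∀ m n, un adj₁ (K.X m) ≫ G₁.map (F₁.map (K.d m n)) = K.d m n ≫ un adj₁ (K.X n) :=
    fun m n => adj₁.unit_naturality (K.d m n)
  have N2 : ∀ m n, γ.app (F₀.obj (K.X m)) ≫ G₁.map (F₀.map (K.d m n)) =
      G₀.map (F₀.map (K.d m n)) ≫ γ.app (F₀.obj (K.X n)) :=
    fun m n => (γ.naturality _).symm
  have N3 : ∀ m n, γ.app (F₁.obj (K.X m)) ≫ G₁.map (F₁.map (K.d m n)) =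
      G₀.map (F₁.map (K.d m n)) ≫ γ.app (F₁.obj (K.X n)) :=
    fun m n => (γ.naturality _).symm
  have N4 : ∀ m n, G₁.map (φ.app (K.X m)) ≫ G₁.map (F₀.map (K.d m n)) =
      G₁.map (F₁.map (K.d m n)) ≫ G₁.map (φ.app (K.X n)) := by
    intro m n
    rw [← G₁.map_comp, ← G₁.map_comp, φ.naturality]
  have N5 : ∀ m n, G₀.map (φ.app (K.X m)) ≫ G₀.map (F₀.map (K.d m n)) =
      G₀.map (F₁.map (K.d m n)) ≫ G₀.map (φ.app (K.X n)) := by
    intro m n
    rw [← G₀.map_comp, ← G₀.map_comp, φ.naturality]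
  have D0 : G₀.map (F₀.map (K.d m n)) ≫ G₀.map (F₀.map (K.d n p)) = 0 := by
    rw [← G₀.map_comp, ← F₀.map_comp, K.d_comp_d, F₀.map_zero, G₀.map_zero]
  have D1 : G₁.map (F₁.map (K.d m n)) ≫ G₁.map (F₁.map (K.d n p)) = 0 := by
    rw [← G₁.map_comp, ← F₁.map_comp, K.d_comp_d, F₁.map_zero, G₁.map_zero]
  have e4 : b₁ ≫ γ.app (F₀.obj (K.X n)) = (-c₁) ≫ G₁.map (φ.app (K.X n)) := by
    rw [← sub_eq_zero]
    have h1 : π₁ ≫ (-(b ≫ γ.app (F₀.obj (K.X n))) - c ≫ G₁.map (φ.app (K.X n)) -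
      e ≫ G₁.map (F₀.map (K.d m n))) = 0 := by rw [e3, comp_zero]
    rw [comp_sub, comp_sub, comp_neg, reassoc_of% hs] at h1
    rw [← neg_eq_zero, ← h1, hb₁, hc₁]
    simp only [add_comp, neg_comp, assoc, N2, N4]
    abel
  obtain ⟨T₂, π₂, hπ₂, w, nn, h1, h2⟩ := h.mid (K.X n) T₁ b₁ (-c₁) e4
  have e5 : (π₂ ≫ π₁ ≫ a + w ≫ G₀.map (F₁.map (K.d n p))) = 0 ∧
      (π₂ ≫ π₁ ≫ k + nn ≫ K.d n p) = 0 := by
    apply h.inj
    · have h3 : π₂ ≫ π₁ ≫ (k ≫ un adj₀ (K.X p) + a ≫ G₀.map (φ.app (K.X p)) +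
          b ≫ G₀.map (F₀.map (K.d n p))) = 0 := by rw [e1, comp_zero, comp_zero]
      have h4 : (π₂ ≫ b₁) ≫ G₀.map (F₀.map (K.d n p)) =
        π₂ ≫ π₁ ≫ b ≫ G₀.map (F₀.map (K.d n p)) := by
        rw [hb₁]
        simp only [comp_add, add_comp, assoc, D0, comp_zero, add_zero]
      rw [h1] at h4
      rw [← h3]
      simp only [comp_add, add_comp, assoc, N0, N5] at h4 ⊢
      rw [← h4]
      abel
    · have h3 : π₂ ≫ π₁ ≫ (-(k ≫ un adj₁ (K.X p)) - a ≫ γ.app (F₁.obj (K.X p)) +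
          c ≫ G₁.map (F₁.map (K.d n p))) = 0 := by rw [e2, comp_zero, comp_zero]
      have h4 : (π₂ ≫ (-c₁)) ≫ G₁.map (F₁.map (K.d n p)) =
        -(π₂ ≫ π₁ ≫ c ≫ G₁.map (F₁.map (K.d n p))) := by
        rw [hc₁]
        simp only [comp_add, comp_neg, neg_comp, add_comp, assoc, D1, comp_zero, add_zero]
      rw [h2] at h4
      rw [← neg_eq_zero, ← h3]
      simp only [comp_add, add_comp, comp_neg, comp_sub, assoc, N1, N3] at h4 ⊢
      rw [← neg_eq_iff_eq_neg] at h4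
      rw [← h4]
      abel
  refine ⟨T₂, π₂ ≫ π₁, inferInstance, nn ≫ (mappingCone.inl U).v n m (by lia) +
    ((w ≫ G₀.map (cinl φ K n m hm) - π₂ ≫ b' ≫ G₀.map (cinr φ K m)) ≫ kinl γ _ m -
    π₂ ≫ c' ≫ G₁.map (cinl φ K m r hr) ≫ kinr γ _ m r hr) ≫ (mappingCone.inr U).f m, ?_⟩
  rw [mappingCone.ext_to_iff U n p hp]
  have e6 := eq_neg_of_add_eq_zero_left e5.1
  have e7 := eq_neg_of_add_eq_zero_left e5.2
  constructor
  · rw [assoc, assoc, assoc, ← hk, e7, mappingCone.d_fst_v U m n p hm hp]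
    simp
  · have e8 : ∀ {Z : A} (f : _ ⟶ Z), ((nn ≫ (mappingCone.inl U).v n m (by lia) +
      ((w ≫ G₀.map (cinl φ K n m hm) - π₂ ≫ b' ≫ G₀.map (cinr φ K m)) ≫ kinl γ _ m -
      π₂ ≫ c' ≫ G₁.map (cinl φ K m r hr) ≫ kinr γ _ m r hr) ≫ (mappingCone.inr U).f m) ≫
      (mappingCone U).d m n) ≫ (mappingCone.snd U).v n n (add_zero n) ≫ f =
      nn ≫ U.f n ≫ f + ((w ≫ G₀.map (cinl φ K n m hm) - π₂ ≫ b' ≫ G₀.map (cinr φ K m)) ≫
        kinl γ _ m - π₂ ≫ c' ≫ G₁.map (cinl φ K m r hr) ≫ kinr γ _ m r hr) ≫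
        ((coconeF γ).obj ((coneF φ).obj K)).d m n ≫ f := by
      intro Z f
      rw [assoc, mappingCone.d_snd_v_assoc U m n hm]
      simp only [add_comp, assoc, comp_add, sub_comp, mappingCone.inl_v_fst_v_assoc,
        mappingCone.inr_f_fst_v_assoc, zero_comp, comp_zero, sub_zero, add_zero,
        mappingCone.inl_v_snd_v_assoc, mappingCone.inr_f_snd_v_assoc, zero_add]
    have hA : x ≫ (mappingCone.snd U).v n n (add_zero n) ≫ kfst γ _ n ≫
        G₀.map (cfst φ K n p hp) = a := by rw [ha, hz, assoc]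
    have hB : x ≫ (mappingCone.snd U).v n n (add_zero n) ≫ kfst γ _ n ≫
        G₀.map (csnd φ K n) = b := by rw [hb, hz, assoc]
    have hC : x ≫ (mappingCone.snd U).v n n (add_zero n) ≫ ksnd γ _ n m hm ≫
        G₁.map (cfst φ K m n hm) = c := by rw [hcc, hz, assoc]
    have hE : x ≫ (mappingCone.snd U).v n n (add_zero n) ≫ ksnd γ _ n m hm ≫
        G₁.map (csnd φ K m) = e := by rw [he, hz, assoc]
    apply kext_to γ n m hm
    · apply Gcext_to φ G₀ n p hp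
      · rw [assoc, assoc, assoc, assoc, assoc, assoc, e8, hA, e6]
        simp [reassoc_of% U1, Gd_cfst φ K G₀ m n p hm hp]
      · rw [assoc, assoc, assoc, assoc, assoc, assoc, e8, hB]
        have h5 : π₂ ≫ π₁ ≫ b = w ≫ G₀.map (φ.app (K.X n)) + nn ≫ un adj₀ (K.X n) -
            π₂ ≫ b' ≫ G₀.map (F₀.map (K.d m n)) := by
          rw [← h1, hb₁, comp_add]
          abel
        rw [h5]
        simp [reassoc_of% U1, Gd_csnd φ K G₀ m n hm]
        abel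
    · apply Gcext_to φ G₁ m n hm
      · rw [assoc, assoc, assoc, assoc, assoc, assoc, e8, hC]
        have h5 : π₂ ≫ π₁ ≫ c = -(w ≫ γ.app (F₁.obj (K.X n))) - nn ≫ un adj₁ (K.X n) -
            π₂ ≫ c' ≫ G₁.map (F₁.map (K.d m n)) := by
          have h6 : π₂ ≫ c₁ = -(w ≫ γ.app (F₁.obj (K.X n)) + nn ≫ un adj₁ (K.X n)) := by
            rw [← h2, comp_neg, neg_neg]
          rw [hc₁, comp_add] at h6
          rw [eq_sub_iff_add_eq, h6]
          abel
        rw [h5]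
        simp [reassoc_of% U2, kd_ksnd_assoc γ _ m n r hr hm, Gd_cfst φ K G₁ r m n hr hm]
        abel
      · rw [assoc, assoc, assoc, assoc, assoc, assoc, e8, hE, hs]
        simp [reassoc_of% U2, kd_ksnd_assoc γ _ m n r hr hm, Gd_csnd φ K G₁ r m hr]

end Chase

end DBr
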